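import Pool.Agent.Lib.MRH.Base
import Pool.Agent.Lib.MP_663568_nul.Sel

/-!
Brun-Titchmarsh for the von Mangoldt function on intervals of fixed ratio, Mertens upper bound.
-/

set_option autoImplicit false

namespace Pool.Agent.MRH

open Finset
open scoped ArithmeticFunction.vonMangoldt

/-- the Chebyshev constant -/
noncomputable def Cp : ℝ := Real.log 4 + 4

lemma Cp_pos : 0 < Cp := by
  have : 0 < Real.log 4 := Real.log_pos (by norm_num)
  unfold Cp; linarith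

lemma Cp_one : 1 ≤ Cp := by
  have : 0 < Real.log 4 := Real.log_pos (by norm_num)
  unfold Cp; linarith

lemma sum_L_le {x : ℝ} (hx : 0 ≤ x) : ∑ d ∈ Ioc 0 ⌊x⌋₊, Λ d ≤ Cp * x := by
  have := Chebyshev.psi_le_const_mul_self hx
  unfold Chebyshev.psi at this
  exact this

lemma sum_L_Ioc {a b : ℕ} (hab : a ≤ b) :
    ∑ d ∈ Ioc a b, Λ d = Chebyshev.psi b - Chebyshev.psi a := by
  unfold Chebyshev.psi
  rw [Nat.floor_natCast, Nat.floor_natCast, ← sum_Ioc_consecutive (fun d => Λ d) (Nat.zero_le a) hab]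
  ring

lemma theta_sub {a b : ℕ} (hab : a ≤ b) :
    Chebyshev.theta b - Chebyshev.theta a = ∑ p ∈ (Ioc a b).filter Nat.Prime, Real.log p := by
  unfold Chebyshev.theta
  rw [Nat.floor_natCast, Nat.floor_natCast, sum_filter, sum_filter, sum_filter,
    ← sum_Ioc_consecutive (fun d : ℕ => if d.Prime then Real.log d else 0) (Nat.zero_le a) hab]
  ring

/-- the sum of `Λ` over `u/(1+δ) ≤ d ≤ u` -/
noncomputable def KK (δ u : ℝ) : ℝ := ∑ d ∈ (Ioc 0 ⌊u⌋₊).filter (fun d : ℕ => u / (1 + δ) < d), Λ d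

lemma KK_le_all {δ u : ℝ} (hu : 0 ≤ u) : KK δ u ≤ Cp * u := by
  refine le_trans ?_ (sum_L_le hu)
  exact sum_le_sum_of_subset_of_nonneg (filter_subset _ _)
    fun _ _ _ => ArithmeticFunction.vonMangoldt_nonneg

lemma bt_Lambda : ∃ C : ℝ, 0 < C ∧ ∀ δ : ℝ, 0 < δ → δ ≤ 1 → ∃ u0 : ℝ, 1 ≤ u0 ∧ ∀ u : ℝ, u0 ≤ u →
    KK δ u ≤ C * (δ * u) := by
  obtain ⟨CB, hCB, hbt⟩ := Pool.Agent.Lib.MP_663568_nt.Nul.brun_titchmarsh
  obtain ⟨C0, hC0⟩ := Chebyshev.psi_sub_theta_le_mul_sqrt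
  set C1 := max C0 1 with hC1
  have hC1' : 1 ≤ C1 := le_max_right _ _
  refine ⟨4 * CB + 1, by positivity, fun δ hδ hδ1 => ?_⟩
  refine ⟨max 1 (max (16 / δ ^ 2) ((C1 / δ) ^ 2)), le_max_left _ _, fun u hu => ?_⟩
  have hu1 : 1 ≤ u := (le_max_left _ _).trans hu
  have hu2 : 16 / δ ^ 2 ≤ u := ((le_max_left _ _).trans (le_max_right _ _)).trans hu
  have hu3 : (C1 / δ) ^ 2 ≤ u := ((le_max_right _ _).trans (le_max_right _ _)).trans hu
  have hu16 : 16 ≤ δ ^ 2 * u := by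
    rw [div_le_iff₀ (by positivity)] at hu2
    linarith
  have hsq : Real.sqrt u * Real.sqrt u = u := Real.mul_self_sqrt (by linarith)
  have hs0 : 0 < Real.sqrt u := Real.sqrt_pos.2 (by linarith)
  have hs1 : 1 ≤ Real.sqrt u := by
    rw [Real.one_le_sqrt]; exact hu1
  have hds : 4 ≤ δ * Real.sqrt u := by
    have h1 : 4 ^ 2 ≤ (δ * Real.sqrt u) ^ 2 := by
      rw [mul_pow, Real.sq_sqrt (by linarith)]
      linarith
    exact le_of_sq_le_sq h1 (by positivity)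
  -- the interval
  set A : ℕ := ⌊u / (1 + δ)⌋₊ with hA
  set N : ℕ := ⌊u⌋₊ with hN
  have hq : u / (1 + δ) ≤ u := div_le_self (by linarith) (by linarith)
  have hAN : A ≤ N := Nat.floor_mono hq
  have hsub : (Ioc 0 N).filter (fun d : ℕ => u / (1 + δ) < d) ⊆ Ioc A N := by
    intro d hd
    rw [mem_filter, mem_Ioc] at hd
    rw [mem_Ioc]
    refine ⟨?_, hd.1.2⟩
    exact (Nat.floor_lt (by positivity)).2 hd.2
  have h1 : KK δ u ≤ ∑ d ∈ Ioc A N, Λ d :=
    sum_le_sum_of_subset_of_nonneg hsub fun _ _ _ => ArithmeticFunction.vonMangoldt_nonneg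
  have h2 : ∑ d ∈ Ioc A N, Λ d ≤ (∑ p ∈ (Ioc A N).filter Nat.Prime, Real.log p)
      + C1 * Real.sqrt u := by
    rw [sum_L_Ioc hAN, ← theta_sub hAN]
    have h3 := hC0 (N : ℝ)
    have h4 := Chebyshev.theta_le_psi (A : ℝ)
    have h5 : C0 * Real.sqrt N ≤ C1 * Real.sqrt u := by
      refine mul_le_mul (le_max_left _ _) (Real.sqrt_le_sqrt (Nat.floor_le (by linarith)))
        (Real.sqrt_nonneg _) (by linarith)
    linarith
  -- length
  have hNle : (N : ℝ) ≤ u := Nat.floor_le (by linarith)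
  have hNgt : u - 1 < N := by have := Nat.lt_floor_add_one u; linarith
  have hAle : (A : ℝ) ≤ u / (1 + δ) := Nat.floor_le (by positivity)
  have hAgt : u / (1 + δ) - 1 < A := by have := Nat.lt_floor_add_one (u / (1 + δ)); linarith
  have hquo : u - u / (1 + δ) = δ * u / (1 + δ) := by field_simp; ring
  have hqu1 : δ * u / (1 + δ) ≤ δ * u := div_le_self (by positivity) (by linarith)
  have hqu2 : δ * u / 2 ≤ δ * u / (1 + δ) := by
    apply div_le_div_of_nonneg_left (by positivity) (by linarith) (by linarith)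
  have hcast : ((N - A : ℕ) : ℝ) = (N : ℝ) - A := by rw [Nat.cast_sub hAN]
  have hy1 : ((N - A : ℕ) : ℝ) ≤ 2 * (δ * u) := by
    rw [hcast]
    have : 4 ≤ δ * u := by
      have h6 : 4 * Real.sqrt u ≤ δ * Real.sqrt u * Real.sqrt u :=
        mul_le_mul_of_nonneg_right hds hs0.le
      rw [mul_assoc, hsq] at h6
      linarith
    linarith
  have hy2 : Real.sqrt u ≤ ((N - A : ℕ) : ℝ) := by
    rw [hcast]
    have h6 : 4 * Real.sqrt u ≤ δ * Real.sqrt u * Real.sqrt u :=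
      mul_le_mul_of_nonneg_right hds hs0.le
    rw [mul_assoc, hsq] at h6
    linarith
  have hsqrt4 : 4 ≤ Real.sqrt u := by
    have : δ * Real.sqrt u ≤ 1 * Real.sqrt u := mul_le_mul_of_nonneg_right hδ1 hs0.le
    linarith
  have hy3 : 2 ≤ N - A := by
    have : (2 : ℝ) ≤ ((N - A : ℕ) : ℝ) := by linarith
    exact_mod_cast this
  have h7 := hbt 1 0 A (N - A) le_rfl (by simp) hy3 (by simpa using (by omega : 1 ≤ N - A))
  have h8 : (Ioc A (A + (N - A))).filter (fun p : ℕ => p.Prime ∧ p ≡ 0 [MOD 1])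
      = (Ioc A N).filter Nat.Prime := by
    rw [Nat.add_sub_cancel' hAN]
    refine filter_congr fun p _ => ?_
    simp [Nat.modEq_one]
  rw [h8] at h7
  have hlogu : 0 < Real.log u := Real.log_pos (by nlinarith)
  have hlogy : Real.log u / 2 ≤ Real.log ((N - A : ℕ) : ℝ) := by
    have h9 := Real.log_le_log hs0 hy2
    rw [Real.log_sqrt (by linarith)] at h9
    exact h9
  have h10 : ∑ p ∈ (Ioc A N).filter Nat.Prime, Real.log p
      ≤ ((Ioc A N).filter Nat.Prime).card * Real.log u := by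
    rw [← nsmul_eq_mul]
    refine sum_le_card_nsmul _ _ _ fun p hp => ?_
    rw [mem_filter, mem_Ioc] at hp
    refine Real.log_le_log (by exact_mod_cast hp.2.pos) ?_
    exact le_trans (by exact_mod_cast hp.1.2) hNle
  have h11 : (((Ioc A N).filter Nat.Prime).card : ℝ) * Real.log u ≤ 4 * CB * (δ * u) := by
    have h12 : (((Ioc A N).filter Nat.Prime).card : ℝ) ≤ CB * (2 * (δ * u)) / (Real.log u / 2) := by
      refine h7.trans ?_
      simp only [Nat.totient_one, Nat.cast_one, one_mul]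
      have : 0 < Real.log u / 2 := by linarith
      gcongr
    calc (((Ioc A N).filter Nat.Prime).card : ℝ) * Real.log u
        ≤ CB * (2 * (δ * u)) / (Real.log u / 2) * Real.log u :=
          mul_le_mul_of_nonneg_right h12 hlogu.le
      _ = 4 * CB * (δ * u) := by field_simp; ring
  have h13 : C1 * Real.sqrt u ≤ δ * u := by
    have h14 : C1 / δ ≤ Real.sqrt u := Real.le_sqrt_of_sq_le hu3
    rw [div_le_iff₀ hδ] at h14
    calc C1 * Real.sqrt u ≤ (Real.sqrt u * δ) * Real.sqrt u :=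
          mul_le_mul_of_nonneg_right h14 hs0.le
      _ = δ * (Real.sqrt u * Real.sqrt u) := by ring
      _ = δ * u := by rw [hsq]
  calc KK δ u ≤ _ := h1
    _ ≤ _ := h2
    _ ≤ 4 * CB * (δ * u) + δ * u := add_le_add (h10.trans h11) h13
    _ = (4 * CB + 1) * (δ * u) := by ring

/-- Mertens upper bound -/
lemma mertens_le {x : ℝ} (hx : 1 ≤ x) : ∑ d ∈ Ioc 0 ⌊x⌋₊, Λ d / d ≤ Real.log x + Cp := by
  have h1 := ArithmeticFunction.sum_Ioc_mul_zeta_eq_sum (R := ℝ) ArithmeticFunction.vonMangoldt ⌊x⌋₊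
  rw [ArithmeticFunction.vonMangoldt_mul_zeta] at h1
  have h2 : ∑ n ∈ Ioc 0 ⌊x⌋₊, ArithmeticFunction.log n ≤ x * Real.log x := by
    calc ∑ n ∈ Ioc 0 ⌊x⌋₊, ArithmeticFunction.log n ≤ ∑ n ∈ Ioc 0 ⌊x⌋₊, Real.log x := by
          refine sum_le_sum fun n hn => ?_
          rw [ArithmeticFunction.log_apply]
          refine Real.log_le_log (by exact_mod_cast (mem_Ioc.1 hn).1) ?_
          exact (Nat.le_floor_iff (by linarith)).1 (mem_Ioc.1 hn).2
      _ = ⌊x⌋₊ * Real.log x := by simp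
      _ ≤ x * Real.log x :=
          mul_le_mul_of_nonneg_right (Nat.floor_le (by linarith)) (Real.log_nonneg hx)
  have h3 : x * ∑ d ∈ Ioc 0 ⌊x⌋₊, Λ d / d
      ≤ ∑ d ∈ Ioc 0 ⌊x⌋₊, (Λ d * ((⌊x⌋₊ / d : ℕ) : ℝ) + Λ d) := by
    rw [mul_sum]
    refine sum_le_sum fun d hd => ?_
    have hd0 : (0 : ℝ) < d := by exact_mod_cast (mem_Ioc.1 hd).1
    have h4 : x / d ≤ ((⌊x⌋₊ / d : ℕ) : ℝ) + 1 := by
      rw [← Nat.floor_div_natCast]
      exact (Nat.lt_floor_add_one _).le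
    have h5 : Λ d * (x / d) ≤ Λ d * (((⌊x⌋₊ / d : ℕ) : ℝ) + 1) :=
      mul_le_mul_of_nonneg_left h4 ArithmeticFunction.vonMangoldt_nonneg
    calc x * (Λ d / d) = Λ d * (x / d) := by ring
      _ ≤ _ := h5
      _ = _ := by ring
  rw [sum_add_distrib] at h3
  have h6 := sum_L_le (x := x) (by linarith)
  have h7 : x * ∑ d ∈ Ioc 0 ⌊x⌋₊, Λ d / d ≤ x * (Real.log x + Cp) := by
    have h8 : ∑ n ∈ Ioc 0 ⌊x⌋₊, Λ n * ((⌊x⌋₊ / n : ℕ) : ℝ) ≤ x * Real.log x := by
      rw [← h1]; exact h2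
    nlinarith
  exact le_of_mul_le_mul_left h7 (by linarith)

end Pool.Agent.MRH
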