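import Mathlib

/-!
Halasz type mean value theorem, qualitative form: definitions and the logarithmic identity.
-/

set_option autoImplicit false

namespace Pool.Agent.MRH

open Finset
open scoped ArithmeticFunction.vonMangoldt

/-- completely multiplicative, bounded by one -/
structure CM (f : ℕ → ℂ) : Prop where
  zero : f 0 = 0
  one : f 1 = 1
  mul : ∀ m n, f (m * n) = f m * f n
  le : ∀ n, ‖f n‖ ≤ 1

/-- partial sums of a sequence -/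
noncomputable def SS (a : ℕ → ℂ) (x : ℝ) : ℂ := ∑ n ∈ Ioc 0 ⌊x⌋₊, a n

lemma SS_zero {a : ℕ → ℂ} {x : ℝ} (hx : x < 1) : SS a x = 0 := by
  have : ⌊x⌋₊ = 0 := Nat.floor_eq_zero.2 hx
  simp [SS, this]

lemma norm_SS_le_sum {a : ℕ → ℂ} {x : ℝ} : ‖SS a x‖ ≤ ∑ n ∈ Ioc 0 ⌊x⌋₊, ‖a n‖ := norm_sum_le _ _

lemma norm_SS_le {a : ℕ → ℂ} (ha : ∀ n, ‖a n‖ ≤ 1) {x : ℝ} (hx : 0 ≤ x) : ‖SS a x‖ ≤ x := by
  refine norm_SS_le_sum.trans ?_
  calc ∑ n ∈ Ioc 0 ⌊x⌋₊, ‖a n‖ ≤ ∑ n ∈ Ioc 0 ⌊x⌋₊, (1 : ℝ) := sum_le_sum fun n _ => ha n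
    _ = ⌊x⌋₊ := by simp
    _ ≤ x := Nat.floor_le hx

/-- the difference of two partial sums -/
lemma norm_SS_sub_le {a : ℕ → ℂ} (ha : ∀ n, ‖a n‖ ≤ 1) {x y : ℝ} (hx : 0 ≤ x) (hxy : x ≤ y) :
    ‖SS a y‖ ≤ ‖SS a x‖ + (y - x) + 1 := by
  have h1 : ⌊x⌋₊ ≤ ⌊y⌋₊ := Nat.floor_mono hxy
  have h2 : SS a y = SS a x + ∑ n ∈ Ioc ⌊x⌋₊ ⌊y⌋₊, a n := by
    unfold SS
    rw [← sum_Ioc_consecutive (fun n => a n) (Nat.zero_le _) h1]
  have h3 : ‖∑ n ∈ Ioc ⌊x⌋₊ ⌊y⌋₊, a n‖ ≤ (y - x) + 1 := by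
    calc ‖∑ n ∈ Ioc ⌊x⌋₊ ⌊y⌋₊, a n‖ ≤ ∑ n ∈ Ioc ⌊x⌋₊ ⌊y⌋₊, ‖a n‖ := norm_sum_le _ _
      _ ≤ ∑ n ∈ Ioc ⌊x⌋₊ ⌊y⌋₊, (1 : ℝ) := sum_le_sum fun n _ => ha n
      _ = ((⌊y⌋₊ - ⌊x⌋₊ : ℕ) : ℝ) := by simp
      _ = (⌊y⌋₊ : ℝ) - ⌊x⌋₊ := by rw [Nat.cast_sub h1]
      _ ≤ (y - x) + 1 := by
        have h4 := Nat.floor_le (hx.trans hxy)
        have h5 := Nat.lt_floor_add_one x
        linarith
  rw [h2]
  refine (norm_add_le _ _).trans ?_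
  linarith

lemma log_conv {f : ℕ → ℂ} (hf : CM f) (N : ℕ) :
    ∑ n ∈ Ioc 0 N, f n * (Real.log n : ℂ)
      = ∑ d ∈ Ioc 0 N, ((Λ d : ℝ) : ℂ) * f d * ∑ m ∈ Ioc 0 (N / d), f m := by
  let g1 : ArithmeticFunction ℂ := ⟨fun d => ((Λ d : ℝ) : ℂ) * f d, by simp⟩
  let g2 : ArithmeticFunction ℂ := ⟨f, hf.zero⟩
  have h1 := ArithmeticFunction.sum_Ioc_mul_eq_sum_sum g1 g2 N
  have h2 : ∀ n, (g1 * g2) n = f n * (Real.log n : ℂ) := by
    intro n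
    rw [ArithmeticFunction.mul_apply]
    have h3 : ∀ x ∈ n.divisorsAntidiagonal, g1 x.1 * g2 x.2 = f n * ((Λ x.1 : ℝ) : ℂ) := by
      intro x hx
      have h4 : x.1 * x.2 = n := (Nat.mem_divisorsAntidiagonal.1 hx).1
      change ((Λ x.1 : ℝ) : ℂ) * f x.1 * f x.2 = _
      rw [← h4, hf.mul]
      ring
    rw [sum_congr rfl h3, ← mul_sum, Nat.sum_divisorsAntidiagonal (fun d _ => ((Λ d : ℝ) : ℂ))]
    rw [← ArithmeticFunction.vonMangoldt_sum]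
    push_cast
    rfl
  rw [sum_congr rfl fun n _ => h2 n] at h1
  exact h1

lemma log_id {f : ℕ → ℂ} (hf : CM f) {x : ℝ} :
    SS (fun n => f n * (Real.log n : ℂ)) x
      = ∑ d ∈ Ioc 0 ⌊x⌋₊, ((Λ d : ℝ) : ℂ) * f d * SS f (x / d) := by
  unfold SS
  rw [log_conv hf]
  refine sum_congr rfl fun d _ => ?_
  rw [Nat.floor_div_natCast]

lemma sum_log_ge (N : ℕ) : (N : ℝ) * Real.log N - N ≤ ∑ n ∈ Ioc 0 N, Real.log n := by
  have h1 : ∑ n ∈ Ioc 0 N, Real.log n = Real.log (N.factorial) := by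
    induction N with
    | zero => simp
    | succ n ih =>
      rw [Finset.sum_Ioc_succ_top (Nat.zero_le n), ih, Nat.factorial_succ]
      push_cast
      rw [Real.log_mul (by positivity) (by positivity)]
      ring
  rw [h1]
  rcases Nat.eq_zero_or_pos N with rfl | hN
  · simp
  have h2 := Real.pow_div_factorial_le_exp (N : ℝ) (by positivity) N
  have hNr : (0 : ℝ) < N := by exact_mod_cast hN
  have h3 : Real.log ((N : ℝ) ^ N / N.factorial) ≤ N := by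
    rw [Real.log_le_iff_le_exp (by positivity)]
    exact h2
  rw [Real.log_div (by positivity) (by positivity), Real.log_pow] at h3
  linarith

lemma sum_log_div_le {x : ℝ} (hx : 1 ≤ x) :
    ∑ n ∈ Ioc 0 ⌊x⌋₊, (Real.log x - Real.log n) ≤ x := by
  have h1 := sum_log_ge ⌊x⌋₊
  have hN : 1 ≤ ⌊x⌋₊ := (Nat.one_le_floor_iff x).2 hx
  have hNr : (0 : ℝ) < ⌊x⌋₊ := by exact_mod_cast hN
  rw [sum_sub_distrib, sum_const, Nat.card_Ioc, nsmul_eq_mul, Nat.sub_zero]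
  have h2 : Real.log x - Real.log ⌊x⌋₊ ≤ x / ⌊x⌋₊ - 1 := by
    rw [← Real.log_div (by positivity) (by positivity)]
    exact Real.log_le_sub_one_of_pos (by positivity)
  have h3 : (⌊x⌋₊ : ℝ) * (Real.log x - Real.log ⌊x⌋₊) ≤ x - ⌊x⌋₊ := by
    calc (⌊x⌋₊ : ℝ) * (Real.log x - Real.log ⌊x⌋₊) ≤ ⌊x⌋₊ * (x / ⌊x⌋₊ - 1) :=
          mul_le_mul_of_nonneg_left h2 hNr.le
      _ = x - ⌊x⌋₊ := by field_simp
  nlinarith

/-- the first half of the logarithmic trick -/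
lemma S_log_le_L {f : ℕ → ℂ} (hf : CM f) {x : ℝ} (hx : 1 ≤ x) :
    ‖SS f x‖ * Real.log x ≤ ‖SS (fun n => f n * (Real.log n : ℂ)) x‖ + x := by
  have h1 : SS f x * (Real.log x : ℂ) = SS (fun n => f n * (Real.log n : ℂ)) x
      + ∑ n ∈ Ioc 0 ⌊x⌋₊, f n * ((Real.log x - Real.log n : ℝ) : ℂ) := by
    unfold SS
    rw [sum_mul, ← sum_add_distrib]
    refine sum_congr rfl fun n _ => ?_
    push_cast
    ring
  have h2 : ‖∑ n ∈ Ioc 0 ⌊x⌋₊, f n * ((Real.log x - Real.log n : ℝ) : ℂ)‖ ≤ x := by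
    refine (norm_sum_le _ _).trans (le_trans (sum_le_sum fun n hn => ?_) (sum_log_div_le hx))
    rw [norm_mul, Complex.norm_real]
    have hn1 : (0 : ℝ) < n := by exact_mod_cast (mem_Ioc.1 hn).1
    have hn2 : (n : ℝ) ≤ x := by
      have := (mem_Ioc.1 hn).2
      exact (Nat.le_floor_iff (by linarith)).1 this
    have h3 : 0 ≤ Real.log x - Real.log n := by
      have := Real.log_le_log hn1 hn2
      linarith
    rw [Real.norm_of_nonneg h3]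
    calc ‖f n‖ * (Real.log x - Real.log n) ≤ 1 * (Real.log x - Real.log n) :=
          mul_le_mul_of_nonneg_right (hf.le n) h3
      _ = _ := one_mul _
  have h4 : ‖SS f x‖ * Real.log x = ‖SS f x * (Real.log x : ℂ)‖ := by
    rw [norm_mul, Complex.norm_real, Real.norm_of_nonneg (Real.log_nonneg hx)]
  rw [h4, h1]
  exact (norm_add_le _ _).trans (by linarith)

/-- the full logarithmic trick -/
lemma S_log_le {f : ℕ → ℂ} (hf : CM f) {x : ℝ} (hx : 1 ≤ x) :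
    ‖SS f x‖ * Real.log x ≤ ∑ d ∈ Ioc 0 ⌊x⌋₊, Λ d * ‖SS f (x / d)‖ + x := by
  refine (S_log_le_L hf hx).trans (add_le_add ?_ le_rfl)
  rw [log_id hf]
  refine (norm_sum_le _ _).trans (sum_le_sum fun d _ => ?_)
  rw [norm_mul, norm_mul, Complex.norm_real, Real.norm_of_nonneg ArithmeticFunction.vonMangoldt_nonneg]
  have h1 : Λ d * ‖f d‖ ≤ Λ d * 1 :=
    mul_le_mul_of_nonneg_left (hf.le d) ArithmeticFunction.vonMangoldt_nonneg
  nlinarith [norm_nonneg (SS f (x / d))]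

end Pool.Agent.MRH
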