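import Pool.Agent.Lib.MRH.Main

/-!
Halasz's theorem, qualitative form, for completely multiplicative functions bounded by one:
the theorem `hal`.
-/

set_option autoImplicit false

namespace Pool.Agent.MRH

open Finset MeasureTheory Complex
open scoped ArithmeticFunction.vonMangoldt
open Pool.Agent.MRHal (ps)

lemma int_ww_le {f : ℕ → ℂ} (hf : CM f) {x η κ : ℝ} (hx : Real.exp 1 ≤ x) (hη : 0 < η) (hη1 : η ≤ 1)
    (hκ : 0 < κ) :
    ∫ v in Set.Icc 1 x, ww f v ≤ η * Real.log x + 1 / (η * Real.log x) *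
      (κ / 2 * 9 * (∫ u in Set.Ioi (0 : ℝ), ‖ps (aN f) u‖ ^ 2 * u ^ (-1 - 2 * (1 + 1 / Real.log x)))
        + Real.log x / (2 * κ) + Real.log x) := by
  have he1 : (1 : ℝ) ≤ Real.exp 1 := Real.one_le_exp (by norm_num)
  have hx1 : 1 ≤ x := he1.trans hx
  have hx0 : 0 < x := by linarith
  set L := Real.log x with hL
  have hL1 : 1 ≤ L := by rw [hL, Real.le_log_iff_exp_le hx0]; exact hx
  have hL0 : 0 < L := by linarith
  set c := 1 + 1 / L with hc
  have hc1 : 1 < c := by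
    have : 0 < 1 / L := by positivity
    linarith
  set h : ℝ → ℝ := fun u => ‖ps (aN f) u‖ ^ 2 * u ^ (-1 - 2 * c) with hh
  have hhint : IntegrableOn h (Set.Ioi 0) := by
    have hc2 : (1 : ℝ) < (1 + c) / 2 := by linarith
    exact int_ps (c' := (1 + c) / 2) (by linarith) (by linarith) (summable_N hf hc2)
  have hh0 : ∀ u : ℝ, 0 < u → 0 ≤ h u := fun u hu => by simp only [hh]; positivity
  have hexp9 : Real.exp 2 ≤ 9 := by
    have h1 : Real.exp 1 < 3 := Real.exp_one_lt_three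
    have h2 : Real.exp 2 = Real.exp 1 * Real.exp 1 := by rw [← Real.exp_add]; norm_num
    rw [h2]
    nlinarith [Real.exp_pos 1]
  set xη := x ^ η with hxη
  have hxη0 : 0 < xη := by positivity
  have hxη1 : 1 ≤ xη := Real.one_le_rpow hx1 hη.le
  have hlogxη : Real.log xη = η * L := by rw [hxη, Real.log_rpow hx0]
  -- the majorant
  have hi1 : Integrable (fun v => (Set.Ioc 1 xη).indicator (fun v => 1 / v) v) :=
    (integrable_indicator_iff measurableSet_Ioc).2 (integrableOn_inv one_pos)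
  have hi2 : IntegrableOn h (Set.Ioc 1 x) :=
    hhint.mono_set fun u hu => lt_trans one_pos hu.1
  have hi3 : IntegrableOn (fun v : ℝ => 1 / v) (Set.Ioc 1 x) := integrableOn_inv one_pos
  have hmaj : ∀ v ∈ Set.Ioc 1 x, ww f v ≤ (Set.Ioc 1 xη).indicator (fun v => 1 / v) v
      + 1 / (η * L) * (κ / 2 * 9 * h v + (1 / (2 * κ) * (1 / v) + 1 / v)) := by
    intro v hv
    have hv1 : 1 < v := hv.1
    have hv0 : 0 < v := by linarith
    have hr0 : 0 ≤ 1 / (η * L) * (κ / 2 * 9 * h v + (1 / (2 * κ) * (1 / v) + 1 / v)) := by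
      have := hh0 v hv0
      positivity
    rcases le_or_gt v xη with hvx | hvx
    · rw [Set.indicator_of_mem (show v ∈ Set.Ioc 1 xη from ⟨hv1, hvx⟩)]
      have := ww_le hf.le hv0
      linarith
    · rw [Set.indicator_of_notMem (fun hm => absurd hm.2 (not_le.2 hvx)), zero_add]
      have h1 := S_log_le_L hf hv1.le
      have hlogv : η * L ≤ Real.log v := by
        rw [← hlogxη]; exact Real.log_le_log hxη0 hvx.le
      have hN : SS (fun n => f n * (Real.log n : ℂ)) v = ps (aN f) v := SS_eq_ps (aN f) v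
      rw [hN] at h1
      have h2 : ‖SS f v‖ * (η * L) ≤ ‖ps (aN f) v‖ + v :=
        (mul_le_mul_of_nonneg_left hlogv (norm_nonneg _)).trans h1
      have h3 : ww f v ≤ 1 / (η * L) * (‖ps (aN f) v‖ / v ^ 2 + 1 / v) := by
        have h4 : ‖SS f v‖ ≤ (‖ps (aN f) v‖ + v) / (η * L) := by
          rw [le_div_iff₀ (by positivity)]; exact h2
        unfold ww
        calc ‖SS f v‖ / v ^ 2 ≤ ((‖ps (aN f) v‖ + v) / (η * L)) / v ^ 2 := by gcongr
          _ = 1 / (η * L) * (‖ps (aN f) v‖ / v ^ 2 + 1 / v) := by field_simp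
      refine h3.trans (mul_le_mul_of_nonneg_left ?_ (by positivity))
      -- AM-GM
      have h5 : ‖ps (aN f) v‖ / v ^ 2 ≤ κ / 2 * (‖ps (aN f) v‖ ^ 2 / v ^ 3) + 1 / (2 * κ) * (1 / v) := by
        have h6 : 0 ≤ (κ * ‖ps (aN f) v‖ / v - 1) ^ 2 := sq_nonneg _
        have h7 : κ / 2 * (‖ps (aN f) v‖ ^ 2 / v ^ 3) + 1 / (2 * κ) * (1 / v) - ‖ps (aN f) v‖ / v ^ 2
            = (κ * ‖ps (aN f) v‖ / v - 1) ^ 2 / (2 * κ * v) := by
          field_simp
          ring
        have h8 : 0 ≤ (κ * ‖ps (aN f) v‖ / v - 1) ^ 2 / (2 * κ * v) := by positivity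
        linarith
      have h9 : ‖ps (aN f) v‖ ^ 2 / v ^ 3 ≤ 9 * h v := by
        have h10 : 1 / v ^ 3 ≤ 9 * v ^ (-1 - 2 * c) := by
          have h11 : v ^ (-1 - 2 * c) = 1 / v ^ 3 * v ^ (-(2 / L)) := by
            rw [one_div, ← Real.rpow_natCast v 3, ← Real.rpow_neg hv0.le, ← Real.rpow_add hv0]
            congr 1
            rw [hc]; push_cast; ring
          have h12 : Real.exp (-2) ≤ v ^ (-(2 / L)) := by
            rw [Real.rpow_def_of_pos hv0]
            refine Real.exp_le_exp.2 ?_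
            have h13 : Real.log v ≤ L := Real.log_le_log hv0 hv.2
            have h14 : Real.log v * (2 / L) ≤ L * (2 / L) :=
              mul_le_mul_of_nonneg_right h13 (by positivity)
            have h15 : L * (2 / L) = 2 := by field_simp
            linarith
          have h16 : 1 ≤ 9 * v ^ (-(2 / L)) := by
            have h17 : Real.exp 2 * Real.exp (-2) = 1 := by rw [← Real.exp_add]; simp
            nlinarith [Real.exp_pos (-2)]
          rw [h11]
          have h18 : 0 < 1 / v ^ 3 := by positivity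
          nlinarith
        simp only [hh]
        calc ‖ps (aN f) v‖ ^ 2 / v ^ 3 = ‖ps (aN f) v‖ ^ 2 * (1 / v ^ 3) := by ring
          _ ≤ ‖ps (aN f) v‖ ^ 2 * (9 * v ^ (-1 - 2 * c)) :=
              mul_le_mul_of_nonneg_left h10 (by positivity)
          _ = _ := by ring
      have h19 : κ / 2 * (‖ps (aN f) v‖ ^ 2 / v ^ 3) ≤ κ / 2 * (9 * h v) :=
        mul_le_mul_of_nonneg_left h9 (by positivity)
      linarith
  have hi7 : IntegrableOn (fun v : ℝ => 1 / (2 * κ) * (1 / v)) (Set.Ioc 1 x) := hi3.const_mul _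
  have hi5 : IntegrableOn (fun v : ℝ => 1 / (2 * κ) * (1 / v) + 1 / v) (Set.Ioc 1 x) := hi7.add hi3
  have hi6 : IntegrableOn (fun v => κ / 2 * 9 * h v) (Set.Ioc 1 x) := hi2.const_mul _
  have hi4 : IntegrableOn (fun v => κ / 2 * 9 * h v + (1 / (2 * κ) * (1 / v) + 1 / v)) (Set.Ioc 1 x) :=
    hi6.add hi5
  have h1 : ∫ v in Set.Icc 1 x, ww f v ≤ ∫ v in Set.Ioc 1 x,
      ((Set.Ioc 1 xη).indicator (fun v => 1 / v) v
      + 1 / (η * L) * (κ / 2 * 9 * h v + (1 / (2 * κ) * (1 / v) + 1 / v))) := by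
    rw [integral_Icc_eq_integral_Ioc]
    exact setIntegral_mono_on (integrableOn_ww hf.le (by simp))
      (hi1.integrableOn.add (hi4.const_mul _)) measurableSet_Ioc hmaj
  refine h1.trans ?_
  rw [integral_add hi1.integrableOn (hi4.const_mul _), integral_const_mul,
    integral_add hi6 hi5, integral_const_mul,
    integral_add hi7 hi3, integral_const_mul, int_inv one_pos hx1, div_one]
  have h2 : ∫ v in Set.Ioc 1 x, (Set.Ioc 1 xη).indicator (fun v => 1 / v) v ≤ η * L := by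
    have h3 : ∫ v in Set.Ioc 1 x, (Set.Ioc 1 xη).indicator (fun v => 1 / v) v
        ≤ ∫ v, (Set.Ioc 1 xη).indicator (fun v => 1 / v) v := by
      refine setIntegral_le_integral hi1 (Filter.Eventually.of_forall fun u => ?_)
      refine Set.indicator_nonneg (fun w hw => ?_) u
      have : (0 : ℝ) < w := lt_trans one_pos hw.1
      positivity
    have h8 : ∫ v, (Set.Ioc 1 xη).indicator (fun v => 1 / v) v = η * L := by
      rw [integral_indicator measurableSet_Ioc, int_inv one_pos hxη1, div_one, hlogxη]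
    exact h3.trans_eq h8
  have h3 : ∫ v in Set.Ioc 1 x, h v ≤ ∫ v in Set.Ioi 0, h v := by
    refine setIntegral_mono_set hhint ?_ ?_
    · exact (ae_restrict_iff' measurableSet_Ioi).2 (Filter.Eventually.of_forall fun u hu => hh0 u hu)
    · exact (show Set.Ioc 1 x ⊆ Set.Ioi 0 from fun u hu => lt_trans one_pos hu.1).eventuallyLE
  have h4 : κ / 2 * 9 * (∫ v in Set.Ioc 1 x, h v) + (1 / (2 * κ) * L + L)
      ≤ κ / 2 * 9 * (∫ v in Set.Ioi 0, h v) + L / (2 * κ) + L := by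
    have : κ / 2 * 9 * (∫ v in Set.Ioc 1 x, h v) ≤ κ / 2 * 9 * (∫ v in Set.Ioi 0, h v) :=
      mul_le_mul_of_nonneg_left h3 (by positivity)
    have h5 : 1 / (2 * κ) * L = L / (2 * κ) := by ring
    linarith
  have h6 : 1 / (η * L) * (κ / 2 * 9 * (∫ v in Set.Ioc 1 x, h v) + (1 / (2 * κ) * L + L))
      ≤ 1 / (η * L) * (κ / 2 * 9 * (∫ v in Set.Ioi 0, h v) + L / (2 * κ) + L) :=
    mul_le_mul_of_nonneg_left h4 (by positivity)
  linarith

/-- **Halasz's theorem, qualitative form.** -/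
theorem hal : ∀ η : ℝ, 0 < η → ∃ e : ℝ, 0 < e ∧ ∃ x0 : ℝ, ∀ x : ℝ, x0 ≤ x → ∀ f : ℕ → ℂ, CM f →
    (∀ y : ℝ, |y| ≤ x → ‖LSeries f (((1 + 1 / Real.log x : ℝ) : ℂ) + I * y)‖ ≤ e * Real.log x) →
    ‖SS f x‖ ≤ η * x := by
  intro ε hε
  have hCp := Cp_pos
  obtain ⟨C1, hC1, hsm⟩ := smooth
  obtain ⟨C2, hC2, hsm2⟩ := hsm (min 1 (ε / 4)) (by positivity) (min_le_left _ _)
  set δ := min 1 (ε / 4) with hδ
  have hδε : δ ≤ ε / 4 := min_le_right _ _
  -- the parameters
  set η := min 1 (ε / (8 * C1)) with hη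
  have hη0 : 0 < η := by positivity
  have hη1 : η ≤ 1 := min_le_left _ _
  have hη2 : C1 * η ≤ ε / 8 := by
    have : η ≤ ε / (8 * C1) := min_le_right _ _
    calc C1 * η ≤ C1 * (ε / (8 * C1)) := mul_le_mul_of_nonneg_left this hC1.le
      _ = ε / 8 := by field_simp
  set e := η ^ 2 / (5 * Cp) with he
  have he0 : 0 < e := by positivity
  obtain ⟨x1, hx1⟩ := J_le e he0
  -- the size of x
  set K := C1 / η + C2 + 1 with hK
  have hK0 : 0 < K := by positivity
  refine ⟨e, he0, max (max x1 (Real.exp 1)) (Real.exp (4 * K / ε)), fun x hx f hf h => ?_⟩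
  have hxa : x1 ≤ x := ((le_max_left _ _).trans (le_max_left _ _)).trans hx
  have hxe : Real.exp 1 ≤ x := ((le_max_right _ _).trans (le_max_left _ _)).trans hx
  have hxK : Real.exp (4 * K / ε) ≤ x := (le_max_right _ _).trans hx
  have he1 : (1 : ℝ) ≤ Real.exp 1 := Real.one_le_exp (by norm_num)
  have hx1' : 1 ≤ x := he1.trans hxe
  have hx0 : 0 < x := by linarith
  set L := Real.log x with hL
  have hL1 : 1 ≤ L := by rw [hL, Real.le_log_iff_exp_le hx0]; exact hxe
  have hL0 : 0 < L := by linarith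
  have hLK : 4 * K / ε ≤ L := by rw [hL, Real.le_log_iff_exp_le hx0]; exact hxK
  have hJ := hx1 x hxa f hf h
  set κ := 1 / (e * Cp * L) with hκ
  have hκ0 : 0 < κ := by positivity
  have hw := int_ww_le hf hxe hη0 hη1 hκ0
  rw [← hL] at hw hJ
  set J := ∫ u in Set.Ioi (0 : ℝ), ‖ps (aN f) u‖ ^ 2 * u ^ (-1 - 2 * (1 + 1 / L)) with hJd
  set W := ∫ v in Set.Icc 1 x, ww f v with hW
  have hw2 : W ≤ 2 * η * L + 1 / η := by
    refine hw.trans ?_
    have h1 : κ / 2 * 9 * J ≤ 9 / 2 * e * Cp * L ^ 2 := by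
      calc κ / 2 * 9 * J ≤ κ / 2 * 9 * (Cp ^ 2 * e ^ 2 * L ^ 3) :=
            mul_le_mul_of_nonneg_left hJ (by positivity)
        _ = 9 / 2 * e * Cp * L ^ 2 := by rw [hκ]; field_simp
    have h2 : L / (2 * κ) = 1 / 2 * e * Cp * L ^ 2 := by rw [hκ]; field_simp
    have h3 : κ / 2 * 9 * J + L / (2 * κ) + L ≤ 5 * e * Cp * L ^ 2 + L := by
      rw [h2]; linarith
    have h4 : 5 * e * Cp * L ^ 2 = η ^ 2 * L ^ 2 := by rw [he]; field_simp
    rw [h4] at h3
    have h5 : 1 / (η * L) * (κ / 2 * 9 * J + L / (2 * κ) + L) ≤ 1 / (η * L) * (η ^ 2 * L ^ 2 + L) :=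
      mul_le_mul_of_nonneg_left h3 (by positivity)
    have h6 : 1 / (η * L) * (η ^ 2 * L ^ 2 + L) = η * L + 1 / η := by field_simp
    linarith
  have h1 := S_log_le hf hx1'
  have h2 := hsm2 f hf.le x hx1'
  rw [← hL, ← hW] at h2
  rw [← hL] at h1
  have h3 : ‖SS f x‖ * L ≤ x * (C1 * (2 * η * L + 1 / η) + C2 + δ * L) + x := by
    have : x * (C1 * W + C2 + δ * L) ≤ x * (C1 * (2 * η * L + 1 / η) + C2 + δ * L) := by gcongr
    linarith
  have h4 : C1 * (2 * η * L + 1 / η) + C2 + δ * L + 1 ≤ ε * L := by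
    have a1 : C1 * (2 * η * L) ≤ ε / 4 * L := by nlinarith
    have a2 : δ * L ≤ ε / 4 * L := mul_le_mul_of_nonneg_right hδε hL0.le
    have a3 : C1 * (1 / η) + C2 + 1 ≤ ε / 4 * L := by
      rw [div_le_iff₀ hε] at hLK
      have : C1 * (1 / η) = C1 / η := by ring
      rw [this]
      linarith
    nlinarith
  have h5 : ‖SS f x‖ * L ≤ ε * x * L := by
    have : x * (C1 * (2 * η * L + 1 / η) + C2 + δ * L + 1) ≤ x * (ε * L) :=
      mul_le_mul_of_nonneg_left h4 hx0.le
    linarith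
  exact le_of_mul_le_mul_right h5 hL0

end Pool.Agent.MRH
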