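import Pool.Agent.Lib.MRH.Series

/-!
Halasz's theorem, qualitative form, for completely multiplicative functions bounded by one.
-/

set_option autoImplicit false

namespace Pool.Agent.MRH

open Finset MeasureTheory Complex
open scoped ArithmeticFunction.vonMangoldt
open Pool.Agent.MRHal (ps bc term_eq parseval norm_bc)

lemma SS_eq_ps (a : ℕ → ℂ) (u : ℝ) : SS a u = ps a u := by
  unfold SS ps
  refine sum_congr ?_ fun _ _ => rfl
  ext n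
  simp only [mem_Ioc, mem_Icc]
  omega

/-- coefficients of minus the derivative -/
noncomputable def aN (f : ℕ → ℂ) (n : ℕ) : ℂ := f n * (Real.log n : ℂ)

/-- coefficients of minus the logarithmic derivative -/
noncomputable def aG (f : ℕ → ℂ) (n : ℕ) : ℂ := ((Λ n : ℝ) : ℂ) * f n

section sums

variable {f : ℕ → ℂ}

lemma norm_aG_le (hf : CM f) (n : ℕ) : ‖aG f n‖ ≤ Λ n := by
  unfold aG
  rw [norm_mul, Complex.norm_real, Real.norm_of_nonneg ArithmeticFunction.vonMangoldt_nonneg]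
  have := hf.le n
  have h : (0 : ℝ) ≤ Λ n := ArithmeticFunction.vonMangoldt_nonneg
  nlinarith

lemma norm_aN_le (hf : CM f) (n : ℕ) : ‖aN f n‖ ≤ Real.log n := by
  unfold aN
  rw [norm_mul, Complex.norm_real]
  have h : 0 ≤ Real.log n := Real.log_natCast_nonneg n
  rw [Real.norm_of_nonneg h]
  have := hf.le n
  nlinarith

lemma bound_f (hf : CM f) {c : ℝ} (hc : 1 < c) :
    (Summable fun n : ℕ => ‖f n‖ * (n : ℝ) ^ (-c)) ∧
      ∑' n : ℕ, ‖f n‖ * (n : ℝ) ^ (-c) ≤ 1 * c / (c - 1) := by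
  refine ls_bound zero_le_one (fun n => norm_nonneg _) (fun n => ?_) hc
  calc ∑ k ∈ Icc 1 n, ‖f k‖ ≤ ∑ k ∈ Icc 1 n, (1 : ℝ) := sum_le_sum fun k _ => hf.le k
    _ = 1 * n := by simp

lemma bound_G (hf : CM f) {c : ℝ} (hc : 1 < c) :
    (Summable fun n : ℕ => ‖aG f n‖ * (n : ℝ) ^ (-c)) ∧
      ∑' n : ℕ, ‖aG f n‖ * (n : ℝ) ^ (-c) ≤ Cp * c / (c - 1) := by
  refine ls_bound Cp_pos.le (fun n => norm_nonneg _) (fun n => ?_) hc
  have h1 : Icc 1 n = Ioc 0 ⌊(n : ℝ)⌋₊ := by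
    rw [Nat.floor_natCast]; ext k; simp only [mem_Ioc, mem_Icc]; omega
  calc ∑ k ∈ Icc 1 n, ‖aG f k‖ ≤ ∑ k ∈ Icc 1 n, Λ k := sum_le_sum fun k _ => norm_aG_le hf k
    _ = ∑ k ∈ Ioc 0 ⌊(n : ℝ)⌋₊, Λ k := by rw [h1]
    _ ≤ Cp * n := sum_L_le (Nat.cast_nonneg n)

lemma summable_N (hf : CM f) {c : ℝ} (hc : 1 < c) :
    Summable fun n : ℕ => ‖aN f n‖ * (n : ℝ) ^ (-c) := by
  set e := (c - 1) / 2 with he
  have he0 : 0 < e := by rw [he]; linarith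
  have h1 : Summable fun n : ℕ => 1 / e * (n : ℝ) ^ (e - c) := by
    refine Summable.mul_left _ (Real.summable_nat_rpow.2 ?_)
    rw [he]; linarith
  refine Summable.of_nonneg_of_le (fun n => by positivity) (fun n => ?_) h1
  rcases Nat.eq_zero_or_pos n with rfl | hn
  · simp only [Nat.cast_zero]
    rw [Real.zero_rpow (by linarith), mul_zero]
    positivity
  have hn0 : (0 : ℝ) < n := by exact_mod_cast hn
  have h2 : Real.log n ≤ (n : ℝ) ^ e / e := Real.log_le_rpow_div hn0.le he0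
  calc ‖aN f n‖ * (n : ℝ) ^ (-c) ≤ ((n : ℝ) ^ e / e) * (n : ℝ) ^ (-c) :=
        mul_le_mul_of_nonneg_right ((norm_aN_le hf n).trans h2) (by positivity)
    _ = 1 / e * ((n : ℝ) ^ e * (n : ℝ) ^ (-c)) := by ring
    _ = 1 / e * (n : ℝ) ^ (e - c) := by rw [← Real.rpow_add hn0, sub_eq_add_neg]

lemma lsum {a : ℕ → ℂ} {c : ℝ} (ha0 : a 0 = 0) (ha : Summable fun n : ℕ => ‖a n‖ * (n : ℝ) ^ (-c))
    (τ : ℝ) : LSeriesSummable a (c + I * τ) := by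
  have h1 : ∀ n, ‖LSeries.term a (c + I * τ) n‖ = ‖a n‖ * (n : ℝ) ^ (-c) := by
    intro n
    rw [term_eq ha0, norm_mul, norm_bc]
    have : ‖cexp (I * τ * ((-Real.log n : ℝ) : ℂ))‖ = 1 := by
      rw [show I * τ * ((-Real.log n : ℝ) : ℂ) = ((τ * (-Real.log n) : ℝ) : ℂ) * I by push_cast; ring]
      exact Complex.norm_exp_ofReal_mul_I _
    rw [this, mul_one]
  exact Summable.of_norm (ha.congr fun n => (h1 n).symm)

lemma LS_N (hf : CM f) {c : ℝ} (hc : 1 < c) (τ : ℝ) :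
    LSeries (aN f) (c + I * τ) = LSeries (aG f) (c + I * τ) * LSeries f (c + I * τ) := by
  let g1 : ArithmeticFunction ℂ := ⟨aG f, by simp [aG]⟩
  let g2 : ArithmeticFunction ℂ := ⟨f, hf.zero⟩
  have h2 : ∀ n, (g1 * g2) n = aN f n := by
    intro n
    rw [ArithmeticFunction.mul_apply]
    have h3 : ∀ x ∈ n.divisorsAntidiagonal, g1 x.1 * g2 x.2 = f n * ((Λ x.1 : ℝ) : ℂ) := by
      intro x hx
      have h4 : x.1 * x.2 = n := (Nat.mem_divisorsAntidiagonal.1 hx).1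
      change ((Λ x.1 : ℝ) : ℂ) * f x.1 * f x.2 = _
      rw [← h4, hf.mul]
      ring
    rw [sum_congr rfl h3, ← mul_sum, Nat.sum_divisorsAntidiagonal (fun d _ => ((Λ d : ℝ) : ℂ))]
    unfold aN
    rw [← ArithmeticFunction.vonMangoldt_sum]
    push_cast
    rfl
  have h5 := ArithmeticFunction.LSeries_mul' (f := g1) (g := g2) (s := c + I * τ)
    (lsum (a := aG f) (by simp [aG]) (bound_G hf hc).1 τ)
    (lsum (a := f) hf.zero (bound_f hf hc).1 τ)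
  have h6 : (fun n => (g1 * g2) n) = aN f := funext h2
  rw [h6] at h5
  exact h5

end sums

lemma int_G {f : ℕ → ℂ} (hf : CM f) {c : ℝ} (hc : 1 < c) :
    ∫ u in Set.Ioi (0 : ℝ), ‖ps (aG f) u‖ ^ 2 * u ^ (-1 - 2 * c) ≤ Cp ^ 2 / (2 * (c - 1)) := by
  have hCp := Cp_pos
  have hg : IntegrableOn (fun u : ℝ => Cp ^ 2 * u ^ (1 - 2 * c)) (Set.Ioi 1) :=
    (integrableOn_Ioi_rpow_of_lt (by linarith) one_pos).const_mul _
  have hg' : Integrable ((Set.Ioi (1 : ℝ)).indicator fun u : ℝ => Cp ^ 2 * u ^ (1 - 2 * c)) :=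
    (integrable_indicator_iff measurableSet_Ioi).2 hg
  have hc1 : (1 : ℝ) < (1 + c) / 2 := by linarith
  have h1 : ∫ u in Set.Ioi (0 : ℝ), ‖ps (aG f) u‖ ^ 2 * u ^ (-1 - 2 * c)
      ≤ ∫ u in Set.Ioi (0 : ℝ), (Set.Ioi (1 : ℝ)).indicator (fun u : ℝ => Cp ^ 2 * u ^ (1 - 2 * c)) u := by
    refine integral_mono_ae (int_ps (c' := (1 + c) / 2) (by linarith) (by linarith) (bound_G hf hc1).1)
      hg'.integrableOn ?_
    have h0 : ∀ᵐ u : ℝ ∂(volume.restrict (Set.Ioi (0 : ℝ))), u ≠ 1 := by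
      refine ae_restrict_of_ae ?_
      exact (Set.countable_singleton (1 : ℝ)).ae_notMem volume |>.mono fun u hu => hu
    filter_upwards [ae_restrict_mem measurableSet_Ioi, h0] with u hu hu1
    have hu0 : (0 : ℝ) < u := hu
    rcases lt_or_ge u 1 with h | h
    · rw [ps_zero h, Set.indicator_of_notMem (by simpa using h.le)]
      simp
    · have h' : 1 < u := lt_of_le_of_ne h (Ne.symm hu1)
      rw [Set.indicator_of_mem (by exact h')]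
      have h2 : ‖ps (aG f) u‖ ≤ Cp * u := by
        rw [← SS_eq_ps]
        refine norm_SS_le_sum.trans ((sum_le_sum fun n _ => norm_aG_le hf n).trans ?_)
        exact sum_L_le hu0.le
      calc ‖ps (aG f) u‖ ^ 2 * u ^ (-1 - 2 * c) ≤ (Cp * u) ^ 2 * u ^ (-1 - 2 * c) := by gcongr
        _ = Cp ^ 2 * u ^ (1 - 2 * c) := by
          rw [mul_pow, mul_assoc]
          congr 1
          rw [← Real.rpow_natCast u 2, ← Real.rpow_add hu0]
          congr 1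
          push_cast
          ring
  refine h1.trans ?_
  have h2 : ∫ u in Set.Ioi (0 : ℝ), (Set.Ioi (1 : ℝ)).indicator (fun u : ℝ => Cp ^ 2 * u ^ (1 - 2 * c)) u
      ≤ ∫ u, (Set.Ioi (1 : ℝ)).indicator (fun u : ℝ => Cp ^ 2 * u ^ (1 - 2 * c)) u := by
    refine setIntegral_le_integral hg' (Filter.Eventually.of_forall fun u => ?_)
    refine Set.indicator_nonneg (fun w hw => ?_) u
    have : (0 : ℝ) < w := lt_trans one_pos hw
    positivity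
  refine h2.trans ?_
  rw [integral_indicator measurableSet_Ioi, integral_const_mul,
    integral_Ioi_rpow_of_lt (by linarith) one_pos, Real.one_rpow]
  have h8 : 1 - 2 * c + 1 = -(2 * (c - 1)) := by ring
  rw [h8, neg_div_neg_eq]
  apply le_of_eq
  ring

/-- the integral of `(1+τ^2)^(-3/4)` -/
noncomputable def K34 : ℝ := ∫ τ : ℝ, (1 + ‖τ‖ ^ 2) ^ (-(3 / 2 : ℝ) / 2)

lemma int_K34 : Integrable fun τ : ℝ => (1 + ‖τ‖ ^ 2) ^ (-(3 / 2 : ℝ) / 2) :=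
  integrable_rpow_neg_one_add_norm_sq (by norm_num)

lemma K34_nonneg : 0 ≤ K34 := integral_nonneg fun τ => by positivity

lemma J_le_aux {f : ℕ → ℂ} (hf : CM f) {c x M : ℝ} (hc : 1 < c) (hx : 1 ≤ x) (hM : 0 ≤ M)
    (h : ∀ y : ℝ, |y| ≤ x → ‖LSeries f (c + I * y)‖ ≤ M) :
    ∫ u in Set.Ioi (0 : ℝ), ‖ps (aN f) u‖ ^ 2 * u ^ (-1 - 2 * c)
      ≤ M ^ 2 * (Cp ^ 2 / (2 * (c - 1)))
        + ((1 * c / (c - 1)) * (Cp * c / (c - 1))) ^ 2 * x ^ (-(1 / 2) : ℝ) * K34 := by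
  have hCp := Cp_pos
  have hx0 : 0 < x := by linarith
  have hcm : 0 < c - 1 := by linarith
  have haN0 : aN f 0 = 0 := by simp [aN]
  have haG0 : aG f 0 = 0 := by simp [aG]
  have hN := summable_N hf hc
  have hG := bound_G hf hc
  have hF := bound_f hf hc
  have h1 := parseval (by linarith : 0 < c) haN0 hN
  have h2 := parseval (by linarith : 0 < c) haG0 hG.1
  set BF := 1 * c / (c - 1) with hBF
  set BG := Cp * c / (c - 1) with hBG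
  have hBF0 : 0 ≤ BF := by positivity
  have hBG0 : 0 ≤ BG := by positivity
  have h3 : ∫ τ : ℝ, ‖LSeries (aN f) (c + I * τ)‖ ^ 2 * (c ^ 2 + τ ^ 2)⁻¹
      ≤ ∫ τ : ℝ, (M ^ 2 * (‖LSeries (aG f) (c + I * τ)‖ ^ 2 * (c ^ 2 + τ ^ 2)⁻¹)
        + (BF * BG) ^ 2 * x ^ (-(1 / 2) : ℝ) * (1 + ‖τ‖ ^ 2) ^ (-(3 / 2 : ℝ) / 2)) := by
    refine integral_mono (int_LS hc.le haN0 hN)
      (((int_LS hc.le haG0 hG.1).const_mul _).add (int_K34.const_mul _)) fun τ => ?_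
    simp only
    rw [LS_N hf hc, norm_mul, mul_pow]
    have hp1 : 0 ≤ M ^ 2 * (‖LSeries (aG f) (c + I * τ)‖ ^ 2 * (c ^ 2 + τ ^ 2)⁻¹) := by positivity
    have hp2 : 0 ≤ (BF * BG) ^ 2 * x ^ (-(1 / 2) : ℝ) * (1 + ‖τ‖ ^ 2) ^ (-(3 / 2 : ℝ) / 2) := by
      positivity
    rcases le_or_gt |τ| x with hτ | hτ
    · have h4 := h τ hτ
      have h5 : ‖LSeries f (c + I * τ)‖ ^ 2 ≤ M ^ 2 := by gcongr
      calc ‖LSeries (aG f) (c + I * τ)‖ ^ 2 * ‖LSeries f (c + I * τ)‖ ^ 2 * (c ^ 2 + τ ^ 2)⁻¹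
          ≤ ‖LSeries (aG f) (c + I * τ)‖ ^ 2 * M ^ 2 * (c ^ 2 + τ ^ 2)⁻¹ := by gcongr
        _ = M ^ 2 * (‖LSeries (aG f) (c + I * τ)‖ ^ 2 * (c ^ 2 + τ ^ 2)⁻¹) := by ring
        _ ≤ _ := by linarith
    · have h4 : ‖LSeries (aG f) (c + I * τ)‖ ≤ BG := (norm_LS_le haG0 hG.1 τ).trans hG.2
      have h5 : ‖LSeries f (c + I * τ)‖ ≤ BF := (norm_LS_le hf.zero hF.1 τ).trans hF.2
      have h6 : (c ^ 2 + τ ^ 2)⁻¹ ≤ x ^ (-(1 / 2) : ℝ) * (1 + ‖τ‖ ^ 2) ^ (-(3 / 2 : ℝ) / 2) := by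
        have h7 : (c ^ 2 + τ ^ 2)⁻¹ ≤ (1 + ‖τ‖ ^ 2)⁻¹ := by
          refine inv_anti₀ (by positivity) ?_
          rw [Real.norm_eq_abs, sq_abs]
          nlinarith
        refine h7.trans ?_
        have h8 : (0 : ℝ) < 1 + ‖τ‖ ^ 2 := by positivity
        have h9 : (1 + ‖τ‖ ^ 2)⁻¹ = (1 + ‖τ‖ ^ 2) ^ (-(1 / 4) : ℝ) * (1 + ‖τ‖ ^ 2) ^ (-(3 / 2 : ℝ) / 2) := by
          rw [← Real.rpow_add h8, ← Real.rpow_neg_one]
          norm_num
        rw [h9]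
        refine mul_le_mul_of_nonneg_right ?_ (by positivity)
        have h10 : x ^ 2 ≤ 1 + ‖τ‖ ^ 2 := by
          rw [Real.norm_eq_abs]
          nlinarith
        calc (1 + ‖τ‖ ^ 2) ^ (-(1 / 4) : ℝ) ≤ (x ^ 2) ^ (-(1 / 4) : ℝ) :=
              Real.rpow_le_rpow_of_nonpos (by positivity) h10 (by norm_num)
          _ = x ^ (-(1 / 2) : ℝ) := by
              rw [← Real.rpow_natCast x 2, ← Real.rpow_mul hx0.le]
              norm_num
      calc ‖LSeries (aG f) (c + I * τ)‖ ^ 2 * ‖LSeries f (c + I * τ)‖ ^ 2 * (c ^ 2 + τ ^ 2)⁻¹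
          ≤ BG ^ 2 * BF ^ 2 * (x ^ (-(1 / 2) : ℝ) * (1 + ‖τ‖ ^ 2) ^ (-(3 / 2 : ℝ) / 2)) := by
            gcongr
        _ = (BF * BG) ^ 2 * x ^ (-(1 / 2) : ℝ) * (1 + ‖τ‖ ^ 2) ^ (-(3 / 2 : ℝ) / 2) := by ring
        _ ≤ _ := by linarith
  rw [integral_add ((int_LS hc.le haG0 hG.1).const_mul _) (int_K34.const_mul _), integral_const_mul,
    integral_const_mul, h1, h2] at h3
  have h11 := int_G hf hc
  have hpi := Real.pi_pos
  have hpi3 := Real.pi_gt_three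
  have hK := K34_nonneg
  change 2 * Real.pi * _ ≤ M ^ 2 * (2 * Real.pi * _) + (BF * BG) ^ 2 * x ^ (-(1 / 2) : ℝ) * K34 at h3
  set J := ∫ u in Set.Ioi (0 : ℝ), ‖ps (aN f) u‖ ^ 2 * u ^ (-1 - 2 * c) with hJ
  set JG := ∫ u in Set.Ioi (0 : ℝ), ‖ps (aG f) u‖ ^ 2 * u ^ (-1 - 2 * c) with hJG
  have h12 : 0 ≤ (BF * BG) ^ 2 * x ^ (-(1 / 2) : ℝ) * K34 := by positivity
  have h13 : 2 * Real.pi * J ≤ 2 * Real.pi * (M ^ 2 * (Cp ^ 2 / (2 * (c - 1)))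
        + (BF * BG) ^ 2 * x ^ (-(1 / 2) : ℝ) * K34) := by
    have h14 : M ^ 2 * (2 * Real.pi * JG) ≤ 2 * Real.pi * (M ^ 2 * (Cp ^ 2 / (2 * (c - 1)))) := by
      have : M ^ 2 * (2 * Real.pi * JG) ≤ M ^ 2 * (2 * Real.pi * (Cp ^ 2 / (2 * (c - 1)))) := by
        gcongr
      linarith
    nlinarith
  exact le_of_mul_le_mul_left h13 (by positivity)

/-- the mean square of the partial sums of `f log` -/
lemma J_le : ∀ e : ℝ, 0 < e → ∃ x1 : ℝ, ∀ x : ℝ, x1 ≤ x → ∀ f : ℕ → ℂ, CM f →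
    (∀ y : ℝ, |y| ≤ x → ‖LSeries f (((1 + 1 / Real.log x : ℝ) : ℂ) + I * y)‖ ≤ e * Real.log x) →
    ∫ u in Set.Ioi (0 : ℝ), ‖ps (aN f) u‖ ^ 2 * u ^ (-1 - 2 * (1 + 1 / Real.log x))
      ≤ Cp ^ 2 * e ^ 2 * Real.log x ^ 3 := by
  intro e he
  have hCp := Cp_pos
  have hK := K34_nonneg
  -- the condition for x
  have hlim : Filter.Tendsto (fun x : ℝ => 16 * K34 * (Real.log x / x ^ (1 / 2 : ℝ))) Filter.atTop
      (nhds 0) := by
    have h1 := (isLittleO_log_rpow_atTop (show (0 : ℝ) < 1 / 2 by norm_num)).tendsto_div_nhds_zero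
    have := h1.const_mul (16 * K34)
    rwa [mul_zero] at this
  have hev := hlim.eventually (gt_mem_nhds (show (0 : ℝ) < e ^ 2 / 2 by positivity))
  obtain ⟨x2, hx2⟩ := Filter.eventually_atTop.1 hev
  refine ⟨max x2 (Real.exp 1), fun x hx f hf h => ?_⟩
  have hxe : Real.exp 1 ≤ x := (le_max_right _ _).trans hx
  have hx2' := hx2 x ((le_max_left _ _).trans hx)
  have he1 : (1 : ℝ) ≤ Real.exp 1 := Real.one_le_exp (by norm_num)
  have hx1 : 1 ≤ x := he1.trans hxe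
  have hx0 : 0 < x := by linarith
  set L := Real.log x with hL
  have hL1 : 1 ≤ L := by
    rw [hL, Real.le_log_iff_exp_le hx0]; exact hxe
  have hL0 : 0 < L := by linarith
  have hc : (1 : ℝ) < 1 + 1 / L := by
    have : 0 < 1 / L := by positivity
    linarith
  have h1 := J_le_aux hf hc hx1 (by positivity : 0 ≤ e * L) h
  refine h1.trans ?_
  have hc1 : 1 + 1 / L - 1 = 1 / L := by ring
  rw [hc1]
  have hc2 : 1 + 1 / L ≤ 2 := by
    have : 1 / L ≤ 1 := by rw [div_le_one hL0]; exact hL1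
    linarith
  have hc0 : 0 < 1 + 1 / L := by linarith
  have t1 : (e * L) ^ 2 * (Cp ^ 2 / (2 * (1 / L))) = Cp ^ 2 * e ^ 2 * L ^ 3 / 2 := by
    field_simp
  have t2 : 1 * (1 + 1 / L) / (1 / L) * (Cp * (1 + 1 / L) / (1 / L)) ≤ 4 * Cp * L ^ 2 := by
    have e1 : 1 * (1 + 1 / L) / (1 / L) * (Cp * (1 + 1 / L) / (1 / L))
        = Cp * (1 + 1 / L) ^ 2 * L ^ 2 := by
      field_simp
    rw [e1]
    have : (1 + 1 / L) ^ 2 ≤ 4 := by nlinarith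
    have hp : 0 ≤ Cp * L ^ 2 := by positivity
    nlinarith
  have t3 : x ^ (-(1 / 2) : ℝ) = 1 / x ^ (1 / 2 : ℝ) := by
    rw [Real.rpow_neg hx0.le, one_div (x ^ (1 / 2 : ℝ))]
  have t4 : (1 * (1 + 1 / L) / (1 / L) * (Cp * (1 + 1 / L) / (1 / L))) ^ 2 * x ^ (-(1 / 2) : ℝ) * K34
      ≤ Cp ^ 2 * L ^ 3 * (16 * K34 * (L / x ^ (1 / 2 : ℝ))) := by
    rw [t3]
    have hxp : 0 < x ^ (1 / 2 : ℝ) := by positivity
    calc (1 * (1 + 1 / L) / (1 / L) * (Cp * (1 + 1 / L) / (1 / L))) ^ 2 * (1 / x ^ (1 / 2 : ℝ)) * K34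
        ≤ (4 * Cp * L ^ 2) ^ 2 * (1 / x ^ (1 / 2 : ℝ)) * K34 := by gcongr
      _ = _ := by ring
  have t5 : Cp ^ 2 * L ^ 3 * (16 * K34 * (L / x ^ (1 / 2 : ℝ))) ≤ Cp ^ 2 * L ^ 3 * (e ^ 2 / 2) := by
    exact mul_le_mul_of_nonneg_left hx2'.le (by positivity)
  rw [t1]
  nlinarith

end Pool.Agent.MRH
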