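import Pool.Agent.Lib.MRH.Smooth
import Pool.Agent.Lib.MRL.HalP

/-!
Bounds for Dirichlet series to the right of the line 1.
-/

set_option autoImplicit false

namespace Pool.Agent.MRH

open Finset MeasureTheory Complex
open scoped ArithmeticFunction.vonMangoldt
open Pool.Agent.MRHal (ps bc term_eq parseval norm_bc)

lemma ls_bound {b : ℕ → ℝ} {C : ℝ} (hC : 0 ≤ C) (hb : ∀ n, 0 ≤ b n)
    (hB : ∀ n : ℕ, ∑ k ∈ Icc 1 n, b k ≤ C * n) {c : ℝ} (hc : 1 < c) :
    (Summable fun n : ℕ => b n * (n : ℝ) ^ (-c)) ∧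
      ∑' n : ℕ, b n * (n : ℝ) ^ (-c) ≤ C * c / (c - 1) := by
  have hO : (fun n : ℕ ↦ ∑ k ∈ Icc 1 n, b k) =O[Filter.atTop] fun n : ℕ ↦ (n : ℝ) ^ (1 : ℝ) := by
    refine Asymptotics.IsBigO.of_bound C (Filter.Eventually.of_forall fun n => ?_)
    rw [Real.rpow_one, Real.norm_of_nonneg (sum_nonneg fun k _ => hb k),
      Real.norm_of_nonneg (Nat.cast_nonneg n)]
    exact hB n
  have hs : (1 : ℝ) < ((c : ℂ)).re := by simpa using hc
  have hS : LSeriesSummable (fun n ↦ ((b n : ℝ) : ℂ)) (c : ℂ) :=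
    LSeriesSummable_of_sum_norm_bigO_and_nonneg hO hb zero_le_one hs
  have hterm : ∀ n : ℕ, LSeries.term (fun n ↦ ((b n : ℝ) : ℂ)) (c : ℂ) n
      = ((b n * (n : ℝ) ^ (-c) : ℝ) : ℂ) := by
    intro n
    rcases Nat.eq_zero_or_pos n with rfl | hn
    · simp only [LSeries.term_zero, Nat.cast_zero]
      rw [Real.zero_rpow (by linarith), mul_zero, Complex.ofReal_zero]
    · rw [LSeries.term_of_ne_zero hn.ne']
      push_cast
      rw [Real.rpow_neg (Nat.cast_nonneg n), div_eq_mul_inv]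
      push_cast
      rw [Complex.ofReal_cpow (Nat.cast_nonneg n)]
      norm_num
  have hsum : Summable fun n : ℕ => b n * (n : ℝ) ^ (-c) := by
    have h1 : Summable fun n : ℕ => ((b n * (n : ℝ) ^ (-c) : ℝ) : ℂ) := by
      refine (hS : Summable _).congr fun n => ?_
      exact hterm n
    refine h1.norm.congr fun n => ?_
    rw [Complex.norm_real, Real.norm_of_nonneg]
    exact mul_nonneg (hb n) (by positivity)
  refine ⟨hsum, ?_⟩
  have h2 : LSeries (fun n ↦ ((b n : ℝ) : ℂ)) (c : ℂ) = ((∑' n : ℕ, b n * (n : ℝ) ^ (-c) : ℝ) : ℂ) := by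
    unfold LSeries
    rw [Complex.ofReal_tsum]
    exact tsum_congr hterm
  have h3 := LSeries_eq_mul_integral_of_nonneg b zero_le_one hs hO hb
  have h4 : ‖∫ t in Set.Ioi (1 : ℝ), (∑ k ∈ Icc 1 ⌊t⌋₊, (b k : ℂ)) * (t : ℂ) ^ (-((c : ℂ) + 1))‖
      ≤ ∫ t in Set.Ioi (1 : ℝ), C * t ^ (-c) := by
    refine norm_integral_le_of_norm_le ?_ ?_
    · exact ((integrableOn_Ioi_rpow_of_lt (by linarith) one_pos).const_mul C)
    · refine (ae_restrict_iff' measurableSet_Ioi).2 (Filter.Eventually.of_forall fun t ht => ?_)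
      have ht0 : (0 : ℝ) < t := lt_trans one_pos ht
      rw [norm_mul, Complex.norm_cpow_eq_rpow_re_of_pos ht0]
      have h5 : ‖∑ k ∈ Icc 1 ⌊t⌋₊, (b k : ℂ)‖ ≤ C * t := by
        rw [← Complex.ofReal_sum, Complex.norm_real, Real.norm_of_nonneg (sum_nonneg fun k _ => hb k)]
        exact (hB _).trans (mul_le_mul_of_nonneg_left (Nat.floor_le ht0.le) hC)
      have h6 : (-((c : ℂ) + 1)).re = -c - 1 := by simp; ring
      rw [h6]
      calc ‖∑ k ∈ Icc 1 ⌊t⌋₊, (b k : ℂ)‖ * t ^ (-c - 1) ≤ C * t * t ^ (-c - 1) :=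
            mul_le_mul_of_nonneg_right h5 (by positivity)
        _ = C * t ^ (-c) := by
            rw [mul_assoc]
            congr 1
            nth_rw 1 [← Real.rpow_one t]
            rw [← Real.rpow_add ht0]
            congr 1; ring
  rw [integral_const_mul, integral_Ioi_rpow_of_lt (by linarith) one_pos, Real.one_rpow] at h4
  have h7 : ∑' n : ℕ, b n * (n : ℝ) ^ (-c) = ‖LSeries (fun n ↦ ((b n : ℝ) : ℂ)) (c : ℂ)‖ := by
    rw [h2, Complex.norm_real, Real.norm_of_nonneg]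
    exact tsum_nonneg fun n => mul_nonneg (hb n) (by positivity)
  rw [h7, h3, norm_mul, Complex.norm_real, Real.norm_of_nonneg (by linarith)]
  calc c * ‖∫ t in Set.Ioi (1 : ℝ), (∑ k ∈ Icc 1 ⌊t⌋₊, (b k : ℂ)) * (t : ℂ) ^ (-((c : ℂ) + 1))‖
      ≤ c * (C * (-1 / (-c + 1))) := mul_le_mul_of_nonneg_left h4 (by linarith)
    _ = C * c / (c - 1) := by
      have h8 : -c + 1 ≠ 0 := by intro h; linarith
      have h9 : c - 1 ≠ 0 := by intro h; linarith
      rw [show -c + 1 = -(c - 1) by ring]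
      field_simp

section general

variable {a : ℕ → ℂ} {c : ℝ}

lemma norm_LS_le (ha0 : a 0 = 0) (ha : Summable fun n : ℕ => ‖a n‖ * (n : ℝ) ^ (-c)) (τ : ℝ) :
    ‖LSeries a (c + I * τ)‖ ≤ ∑' n : ℕ, ‖a n‖ * (n : ℝ) ^ (-c) := by
  unfold LSeries
  have h1 : ∀ n, ‖LSeries.term a (c + I * τ) n‖ = ‖a n‖ * (n : ℝ) ^ (-c) := by
    intro n
    rw [term_eq ha0, norm_mul, norm_bc]
    have : ‖cexp (I * τ * ((-Real.log n : ℝ) : ℂ))‖ = 1 := by
      rw [show I * τ * ((-Real.log n : ℝ) : ℂ) = ((τ * (-Real.log n) : ℝ) : ℂ) * I by push_cast; ring]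
      exact Complex.norm_exp_ofReal_mul_I _
    rw [this, mul_one]
  have h2 : Summable fun n => ‖LSeries.term a (c + I * τ) n‖ := by
    refine ha.congr fun n => (h1 n).symm
  refine (norm_tsum_le_tsum_norm h2).trans (le_of_eq (tsum_congr h1))

lemma cont_LS (ha0 : a 0 = 0) (ha : Summable fun n : ℕ => ‖a n‖ * (n : ℝ) ^ (-c)) :
    Continuous fun τ : ℝ => LSeries a (c + I * τ) := by
  unfold LSeries
  simp_rw [term_eq ha0]
  refine continuous_tsum (u := fun n : ℕ => ‖a n‖ * (n : ℝ) ^ (-c)) (fun n => ?_) ha (fun n τ => ?_)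
  · fun_prop
  · rw [norm_mul, norm_bc]
    have : ‖cexp (I * τ * ((-Real.log n : ℝ) : ℂ))‖ = 1 := by
      rw [show I * τ * ((-Real.log n : ℝ) : ℂ) = ((τ * (-Real.log n) : ℝ) : ℂ) * I by push_cast; ring]
      exact Complex.norm_exp_ofReal_mul_I _
    rw [this, mul_one]

lemma int_LS (hc : 1 ≤ c) (ha0 : a 0 = 0) (ha : Summable fun n : ℕ => ‖a n‖ * (n : ℝ) ^ (-c)) :
    Integrable fun τ : ℝ => ‖LSeries a (c + I * τ)‖ ^ 2 * (c ^ 2 + τ ^ 2)⁻¹ := by
  set B := ∑' n : ℕ, ‖a n‖ * (n : ℝ) ^ (-c) with hB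
  have h1 := (integrable_inv_one_add_sq).const_mul (B ^ 2)
  refine h1.mono' ?_ (Filter.Eventually.of_forall fun τ => ?_)
  · have hcont := cont_LS ha0 ha
    have hc2 : Continuous fun τ : ℝ => (c ^ 2 + τ ^ 2)⁻¹ := by
      refine Continuous.inv₀ (by fun_prop) fun τ => ?_
      positivity
    exact ((hcont.norm.pow 2).mul hc2).aestronglyMeasurable
  · rw [Real.norm_of_nonneg (by positivity)]
    have h2 := norm_LS_le ha0 ha τ
    have h3 : (c ^ 2 + τ ^ 2)⁻¹ ≤ (1 + τ ^ 2)⁻¹ := by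
      refine inv_anti₀ (by positivity) ?_
      nlinarith
    gcongr

lemma ps_zero {u : ℝ} (hu : u < 1) : ps a u = 0 := by
  have : ⌊u⌋₊ = 0 := Nat.floor_eq_zero.2 hu
  simp [ps, this]

lemma measurable_ps : Measurable (ps a) := by
  have h1 : ps a = (fun n : ℕ => ∑ k ∈ Icc 1 n, a k) ∘ (fun x : ℝ => ⌊x⌋₊) := rfl
  rw [h1]
  exact (measurable_from_nat).comp Nat.measurable_floor

lemma ps_le {c' : ℝ} (hc' : 0 ≤ c') (ha : Summable fun n : ℕ => ‖a n‖ * (n : ℝ) ^ (-c')) {u : ℝ}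
    (hu : 1 ≤ u) : ‖ps a u‖ ≤ (∑' n : ℕ, ‖a n‖ * (n : ℝ) ^ (-c')) * u ^ c' := by
  have h1 : ‖ps a u‖ ≤ ∑ n ∈ Icc 1 ⌊u⌋₊, ‖a n‖ * (n : ℝ) ^ (-c') * u ^ c' := by
    refine (norm_sum_le _ _).trans (sum_le_sum fun n hn => ?_)
    have hn1 : (0 : ℝ) < n := by exact_mod_cast (mem_Icc.1 hn).1
    have hn2 : (n : ℝ) ≤ u := (Nat.le_floor_iff (by linarith)).1 (mem_Icc.1 hn).2
    rw [mul_assoc]
    have h2 : 1 ≤ (n : ℝ) ^ (-c') * u ^ c' := by
      rw [Real.rpow_neg hn1.le, inv_mul_eq_div, ← Real.div_rpow (by linarith) hn1.le]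
      exact Real.one_le_rpow (by rw [le_div_iff₀ hn1]; linarith) hc'
    nlinarith [norm_nonneg (a n)]
  refine h1.trans ?_
  rw [← sum_mul]
  refine mul_le_mul_of_nonneg_right ?_ (by positivity)
  exact ha.sum_le_tsum _ fun n _ => by positivity

lemma int_ps {c' : ℝ} (hc' : 0 ≤ c') (hcc : c' < c)
    (ha : Summable fun n : ℕ => ‖a n‖ * (n : ℝ) ^ (-c')) :
    IntegrableOn (fun u : ℝ => ‖ps a u‖ ^ 2 * u ^ (-1 - 2 * c)) (Set.Ioi 0) := by
  set B := ∑' n : ℕ, ‖a n‖ * (n : ℝ) ^ (-c') with hB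
  have hg : Integrable ((Set.Ioi (1 : ℝ)).indicator fun u : ℝ => B ^ 2 * u ^ (2 * c' - 1 - 2 * c))
      (volume.restrict (Set.Ioi (0 : ℝ))) := by
    have h1 : IntegrableOn (fun u : ℝ => B ^ 2 * u ^ (2 * c' - 1 - 2 * c)) (Set.Ioi 1) :=
      (integrableOn_Ioi_rpow_of_lt (by linarith) one_pos).const_mul _
    exact ((integrable_indicator_iff measurableSet_Ioi).2 h1).integrableOn
  refine hg.mono' ?_ ?_
  · refine Measurable.aestronglyMeasurable ?_
    exact ((measurable_ps).norm.pow_const 2).mul (measurable_id.pow_const _)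
  · have h0 : ∀ᵐ u : ℝ ∂(volume.restrict (Set.Ioi (0 : ℝ))), u ≠ 1 := by
      refine ae_restrict_of_ae ?_
      exact (Set.countable_singleton (1 : ℝ)).ae_notMem volume |>.mono fun u hu => hu
    filter_upwards [ae_restrict_mem measurableSet_Ioi, h0] with u hu hu1
    have hu0 : (0 : ℝ) < u := hu
    rw [Real.norm_of_nonneg (by positivity)]
    rcases lt_or_ge u 1 with h | h
    · rw [ps_zero h, Set.indicator_of_notMem (by simpa using h.le)]
      simp
    · have h' : 1 < u := lt_of_le_of_ne h (Ne.symm hu1)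
      rw [Set.indicator_of_mem (by exact h')]
      have h2 := ps_le hc' ha h
      calc ‖ps a u‖ ^ 2 * u ^ (-1 - 2 * c) ≤ (B * u ^ c') ^ 2 * u ^ (-1 - 2 * c) := by gcongr
        _ = B ^ 2 * u ^ (2 * c' - 1 - 2 * c) := by
          rw [mul_pow, mul_assoc]
          congr 1
          rw [← Real.rpow_natCast (u ^ c') 2, ← Real.rpow_mul hu0.le, ← Real.rpow_add hu0]
          congr 1
          push_cast
          ring

end general

end Pool.Agent.MRH
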