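import Pool.Agent.Lib.MRH.BT

/-!
The smoothing step: the sum over prime powers is bounded by an integral.
-/

set_option autoImplicit false

namespace Pool.Agent.MRH

open Finset MeasureTheory
open scoped ArithmeticFunction.vonMangoldt

lemma measurable_SS (a : ℕ → ℂ) : Measurable (SS a) := by
  have h1 : SS a = (fun n : ℕ => ∑ k ∈ Ioc 0 n, a k) ∘ (fun x : ℝ => ⌊x⌋₊) := rfl
  rw [h1]
  exact (measurable_from_nat).comp Nat.measurable_floor

/-- the weighted size of the partial sums -/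
noncomputable def ww (f : ℕ → ℂ) (v : ℝ) : ℝ := ‖SS f v‖ / v ^ 2

lemma measurable_ww (f : ℕ → ℂ) : Measurable (ww f) :=
  (measurable_SS f).norm.div (measurable_id.pow_const 2)

lemma ww_nonneg (f : ℕ → ℂ) (v : ℝ) : 0 ≤ ww f v := by unfold ww; positivity

lemma ww_zero {f : ℕ → ℂ} {v : ℝ} (hv : v < 1) : ww f v = 0 := by
  unfold ww; rw [SS_zero hv]; simp

lemma ww_le {f : ℕ → ℂ} (hf : ∀ n, ‖f n‖ ≤ 1) {v : ℝ} (hv : 0 < v) : ww f v ≤ 1 / v := by
  unfold ww
  rw [div_le_div_iff₀ (by positivity) hv]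
  have := norm_SS_le hf hv.le
  nlinarith

lemma ww_le_one {f : ℕ → ℂ} (hf : ∀ n, ‖f n‖ ≤ 1) (v : ℝ) : ww f v ≤ 1 := by
  rcases lt_or_ge v 1 with hv | hv
  · rw [ww_zero hv]; norm_num
  · refine (ww_le hf (by linarith)).trans ?_
    rw [div_le_one (by linarith)]; exact hv

lemma integrableOn_ww {f : ℕ → ℂ} (hf : ∀ n, ‖f n‖ ≤ 1) {s : Set ℝ} (hs : volume s ≠ ⊤) :
    IntegrableOn (ww f) s :=
  Measure.integrableOn_of_bounded (M := 1) hs (measurable_ww f).aestronglyMeasurable
    (Filter.Eventually.of_forall fun v => by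
      rw [Real.norm_of_nonneg (ww_nonneg f v)]; exact ww_le_one hf v)

lemma int_inv_sq {a b : ℝ} (ha : 0 < a) (hab : a ≤ b) :
    ∫ v in Set.Ioc a b, 1 / v ^ 2 = 1 / a - 1 / b := by
  rw [← intervalIntegral.integral_of_le hab]
  have h1 : ∀ v ∈ Set.uIcc a b, HasDerivAt (fun v : ℝ => -v⁻¹) (1 / v ^ 2) v := by
    intro v hv
    rw [Set.uIcc_of_le hab] at hv
    have hv0 : v ≠ 0 := by have := hv.1; intro h; linarith
    have h2 : HasDerivAt (fun v : ℝ => -v⁻¹) (-(-(v ^ 2)⁻¹)) v := (hasDerivAt_inv hv0).fun_neg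
    rw [neg_neg, ← one_div] at h2
    exact h2
  have h3 : IntervalIntegrable (fun v : ℝ => 1 / v ^ 2) volume a b := by
    apply ContinuousOn.intervalIntegrable
    intro v hv
    rw [Set.uIcc_of_le hab] at hv
    have hv0 : v ≠ 0 := by have := hv.1; intro h; linarith
    exact (continuousAt_const.div (continuousAt_id.pow 2) (pow_ne_zero 2 hv0)).continuousWithinAt
  rw [intervalIntegral.integral_eq_sub_of_hasDerivAt h1 h3]
  ring

lemma int_inv {a b : ℝ} (ha : 0 < a) (hab : a ≤ b) :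
    ∫ v in Set.Ioc a b, 1 / v = Real.log (b / a) := by
  rw [← intervalIntegral.integral_of_le hab]
  exact integral_one_div_of_pos ha (ha.trans_le hab)

lemma integrableOn_inv {a b : ℝ} (ha : 0 < a) : IntegrableOn (fun v : ℝ => 1 / v) (Set.Ioc a b) := by
  refine (ContinuousOn.integrableOn_Icc ?_).mono_set Set.Ioc_subset_Icc_self
  intro v hv
  have hv0 : v ≠ 0 := by have := hv.1; intro h; linarith
  exact (continuousAt_const.div continuousAt_id hv0).continuousWithinAt

lemma integrableOn_inv_sq {a b : ℝ} (ha : 0 < a) :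
    IntegrableOn (fun v : ℝ => 1 / v ^ 2) (Set.Ioc a b) := by
  refine (ContinuousOn.integrableOn_Icc ?_).mono_set Set.Ioc_subset_Icc_self
  intro v hv
  have hv0 : v ≠ 0 := by have := hv.1; intro h; linarith
  exact (continuousAt_const.div (continuousAt_id.pow 2) (pow_ne_zero 2 hv0)).continuousWithinAt

/-- one value of the partial sum is bounded by an average to its left -/
lemma S_le_avg {f : ℕ → ℂ} (hf : ∀ n, ‖f n‖ ≤ 1) {δ b : ℝ} (hδ : 0 < δ) (hb : 0 < b) :
    ‖SS f b‖ ≤ b / δ * (∫ v in Set.Ioc (b / (1 + δ)) b, ww f v) + δ * b + 1 := by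
  set a := b / (1 + δ) with ha
  have ha0 : 0 < a := by positivity
  have hab : a ≤ b := div_le_self hb.le (by linarith)
  have h1 : ∫ v in Set.Ioc a b, (‖SS f b‖ - (δ * b + 1)) * (1 / v ^ 2) ≤ ∫ v in Set.Ioc a b, ww f v := by
    refine setIntegral_mono_on ?_ ?_ measurableSet_Ioc ?_
    · exact (integrableOn_inv_sq ha0).const_mul _
    · exact integrableOn_ww hf (by simp)
    · intro v hv
      have hv0 : 0 < v := ha0.trans hv.1
      have h2 := norm_SS_sub_le hf hv0.le hv.2
      have h3 : b - a ≤ δ * b := by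
        have : b - a = δ * b / (1 + δ) := by rw [ha]; field_simp; ring
        rw [this]
        exact div_le_self (by positivity) (by linarith)
      have h4 : ‖SS f b‖ - (δ * b + 1) ≤ ‖SS f v‖ := by
        have := hv.1
        linarith
      have h5 : ww f v = ‖SS f v‖ * (1 / v ^ 2) := by unfold ww; ring
      rw [h5]
      exact mul_le_mul_of_nonneg_right h4 (by positivity)
  rw [integral_const_mul, int_inv_sq ha0 hab] at h1
  have h5 : 1 / a - 1 / b = δ / b := by rw [ha]; field_simp; ring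
  rw [h5] at h1
  have h6 : ‖SS f b‖ - (δ * b + 1) ≤ b / δ * ∫ v in Set.Ioc a b, ww f v := by
    have h7 := mul_le_mul_of_nonneg_left h1 (show 0 ≤ b / δ by positivity)
    have h8 : b / δ * ((‖SS f b‖ - (δ * b + 1)) * (δ / b)) = ‖SS f b‖ - (δ * b + 1) := by
      field_simp
    rw [h8] at h7
    exact h7
  linarith

/-- the kernel -/
noncomputable def kk (δ x v : ℝ) : ℝ :=
  ∑ d ∈ Ioc 0 ⌊x⌋₊, Λ d / (d * δ) * (Set.Ioc (x / d / (1 + δ)) (x / d)).indicator (fun _ => 1) v

lemma kk_le {δ x v : ℝ} (hδ : 0 < δ) (hδ1 : δ ≤ 1) (hx : 1 ≤ x) (hv : 0 < v) :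
    kk δ x v ≤ 2 * KK δ (x / v) / (x / v * δ) := by
  set u := x / v with hu
  have hu0 : 0 < u := by positivity
  have h1 : ∀ d ∈ Ioc 0 ⌊x⌋₊, Λ d / (d * δ) * (Set.Ioc (x / d / (1 + δ)) (x / d)).indicator
      (fun _ => (1 : ℝ)) v ≤ if (u / (1 + δ) < d ∧ (d : ℝ) ≤ u) then 2 * Λ d / (u * δ) else 0 := by
    intro d hd
    have hd0 : (0 : ℝ) < d := by exact_mod_cast (mem_Ioc.1 hd).1
    by_cases hm : v ∈ Set.Ioc (x / d / (1 + δ)) (x / d)
    · rw [Set.indicator_of_mem hm, mul_one]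
      have c1 : u / (1 + δ) < d := by
        have := hm.1
        rw [div_div, div_lt_iff₀ (by positivity)] at this
        rw [hu, div_div, div_lt_iff₀ (by positivity)]
        linarith [mul_comm v (d * (1 + δ))]
      have c2 : (d : ℝ) ≤ u := by
        have := hm.2
        rw [le_div_iff₀ hd0] at this
        rw [hu, le_div_iff₀ hv]
        linarith [mul_comm v (d : ℝ)]
      rw [if_pos ⟨c1, c2⟩]
      rw [div_le_div_iff₀ (by positivity) (by positivity)]
      have c3 : u ≤ 2 * d := by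
        rw [div_lt_iff₀ (by positivity)] at c1
        nlinarith
      have c4 : (0 : ℝ) ≤ Λ d := ArithmeticFunction.vonMangoldt_nonneg
      calc Λ d * (u * δ) ≤ Λ d * (2 * d * δ) := by gcongr
        _ = 2 * Λ d * (d * δ) := by ring
    · rw [Set.indicator_of_notMem hm, mul_zero]
      have c4 : (0 : ℝ) ≤ Λ d := ArithmeticFunction.vonMangoldt_nonneg
      split_ifs
      · positivity
      · exact le_rfl
  refine (sum_le_sum h1).trans ?_
  rw [← sum_filter]
  have h2 : ∑ d ∈ (Ioc 0 ⌊x⌋₊).filter (fun d : ℕ => u / (1 + δ) < d ∧ (d : ℝ) ≤ u),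
      2 * Λ d / (u * δ) ≤ ∑ d ∈ (Ioc 0 ⌊u⌋₊).filter (fun d : ℕ => u / (1 + δ) < d),
      2 * Λ d / (u * δ) := by
    refine sum_le_sum_of_subset_of_nonneg ?_ fun d _ _ => ?_
    · intro d hd
      rw [mem_filter, mem_Ioc] at hd
      rw [mem_filter, mem_Ioc]
      exact ⟨⟨hd.1.1, Nat.le_floor hd.2.2⟩, hd.2.1⟩
    · have c4 : (0 : ℝ) ≤ Λ d := ArithmeticFunction.vonMangoldt_nonneg
      positivity
  refine h2.trans (le_of_eq ?_)
  unfold KK
  rw [mul_sum, sum_div]

theorem smooth : ∃ C1 : ℝ, 0 < C1 ∧ ∀ δ : ℝ, 0 < δ → δ ≤ 1 → ∃ C2 : ℝ, 0 < C2 ∧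
    ∀ f : ℕ → ℂ, (∀ n, ‖f n‖ ≤ 1) → ∀ x : ℝ, 1 ≤ x →
    ∑ d ∈ Ioc 0 ⌊x⌋₊, Λ d * ‖SS f (x / d)‖
      ≤ x * (C1 * (∫ v in Set.Icc 1 x, ww f v) + C2 + δ * Real.log x) := by
  obtain ⟨C, hC, hbt⟩ := bt_Lambda
  refine ⟨2 * C, by positivity, fun δ hδ hδ1 => ?_⟩
  obtain ⟨u0, hu01, hu0⟩ := hbt δ hδ hδ1
  have hlogu0 : 0 ≤ Real.log u0 := Real.log_nonneg hu01
  have hCp := Cp_pos
  refine ⟨2 * Cp / δ * Real.log u0 + δ * Cp + Cp, by positivity, fun f hf x hx => ?_⟩
  have hx0 : 0 < x := by linarith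
  -- pointwise
  have h1 : ∀ d ∈ Ioc 0 ⌊x⌋₊, Λ d * ‖SS f (x / d)‖
      ≤ x * (Λ d / (d * δ) * ∫ v in Set.Ioc (x / d / (1 + δ)) (x / d), ww f v)
        + δ * x * (Λ d / d) + Λ d := by
    intro d hd
    have hd0 : (0 : ℝ) < d := by exact_mod_cast (mem_Ioc.1 hd).1
    have h2 := S_le_avg (f := f) hf hδ (show 0 < x / d by positivity)
    have c4 : (0 : ℝ) ≤ Λ d := ArithmeticFunction.vonMangoldt_nonneg
    calc Λ d * ‖SS f (x / d)‖ ≤ Λ d * (x / d / δ * (∫ v in Set.Ioc (x / d / (1 + δ)) (x / d), ww f v)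
          + δ * (x / d) + 1) := mul_le_mul_of_nonneg_left h2 c4
      _ = _ := by field_simp
  -- convert the integrals
  have h2 : ∀ d ∈ Ioc 0 ⌊x⌋₊, ∫ v in Set.Ioc (x / d / (1 + δ)) (x / d), ww f v
      = ∫ v in Set.Icc 1 x, (Set.Ioc (x / d / (1 + δ)) (x / d)).indicator (fun _ => 1) v * ww f v := by
    intro d hd
    have hd1 : (1 : ℝ) ≤ d := by exact_mod_cast (mem_Ioc.1 hd).1
    rw [← integral_indicator measurableSet_Ioc]
    rw [setIntegral_eq_integral_of_forall_compl_eq_zero]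
    · refine integral_congr_ae (Filter.Eventually.of_forall fun v => ?_)
      by_cases hm : v ∈ Set.Ioc (x / d / (1 + δ)) (x / d)
      · simp [Set.indicator_of_mem hm]
      · simp [Set.indicator_of_notMem hm]
    · intro v hv
      rw [Set.mem_Icc, not_and_or, not_le, not_le] at hv
      rcases hv with hv | hv
      · rw [ww_zero hv, mul_zero]
      · rw [Set.indicator_of_notMem, zero_mul]
        intro hm
        have : x / d ≤ x := div_le_self hx0.le hd1
        have := hm.2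
        linarith
  have hintd : ∀ d ∈ Ioc 0 ⌊x⌋₊, IntegrableOn (fun v => Λ d / (d * δ) *
      ((Set.Ioc (x / d / (1 + δ)) (x / d)).indicator (fun _ => 1) v * ww f v)) (Set.Icc 1 x) := by
    intro d _
    refine Integrable.const_mul ?_ _
    refine Measure.integrableOn_of_bounded (M := 1) (by simp) ?_ ?_
    · exact ((measurable_const.indicator measurableSet_Ioc).mul (measurable_ww f)).aestronglyMeasurable
    · refine Filter.Eventually.of_forall fun v => ?_
      rw [norm_mul, Real.norm_of_nonneg (ww_nonneg f v)]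
      have h3 : ‖(Set.Ioc (x / d / (1 + δ)) (x / d)).indicator (fun _ => (1 : ℝ)) v‖ ≤ 1 := by
        by_cases hm : v ∈ Set.Ioc (x / d / (1 + δ)) (x / d)
        · simp [Set.indicator_of_mem hm]
        · simp [Set.indicator_of_notMem hm]
      have h4 := ww_le_one hf v
      have h5 := ww_nonneg f v
      nlinarith [norm_nonneg ((Set.Ioc (x / d / (1 + δ)) (x / d)).indicator (fun _ => (1 : ℝ)) v)]
  have h3 : ∑ d ∈ Ioc 0 ⌊x⌋₊, Λ d / (d * δ) * ∫ v in Set.Ioc (x / d / (1 + δ)) (x / d), ww f v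
      = ∫ v in Set.Icc 1 x, kk δ x v * ww f v := by
    calc ∑ d ∈ Ioc 0 ⌊x⌋₊, Λ d / (d * δ) * ∫ v in Set.Ioc (x / d / (1 + δ)) (x / d), ww f v
        = ∑ d ∈ Ioc 0 ⌊x⌋₊, ∫ v in Set.Icc 1 x, Λ d / (d * δ) *
            ((Set.Ioc (x / d / (1 + δ)) (x / d)).indicator (fun _ => 1) v * ww f v) := by
          refine sum_congr rfl fun d hd => ?_
          rw [h2 d hd, integral_const_mul]
      _ = ∫ v in Set.Icc 1 x, ∑ d ∈ Ioc 0 ⌊x⌋₊, Λ d / (d * δ) *
            ((Set.Ioc (x / d / (1 + δ)) (x / d)).indicator (fun _ => 1) v * ww f v) := by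
          rw [integral_finsetSum _ hintd]
      _ = _ := by
          refine integral_congr_ae (Filter.Eventually.of_forall fun v => ?_)
          simp only [kk]
          rw [sum_mul]
          exact sum_congr rfl fun d _ => by ring
  -- bound of the kernel integral
  have hxu : 0 < x / u0 := by positivity
  have hi1 : IntegrableOn (fun v => 2 * C * ww f v) (Set.Icc 1 x) :=
    (integrableOn_ww hf (by simp)).const_mul _
  have hi2 : Integrable (fun v => (Set.Ioc (x / u0) x).indicator (fun v => 2 * Cp / δ * (1 / v)) v) := by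
    rw [integrable_indicator_iff measurableSet_Ioc]
    exact (integrableOn_inv hxu).const_mul _
  have h4 : ∫ v in Set.Icc 1 x, kk δ x v * ww f v
      ≤ ∫ v in Set.Icc 1 x, (2 * C * ww f v
        + (Set.Ioc (x / u0) x).indicator (fun v => 2 * Cp / δ * (1 / v)) v) := by
    refine setIntegral_mono_on ?_ (hi1.add hi2.integrableOn) measurableSet_Icc ?_
    · have h5 := integrable_finsetSum (Ioc 0 ⌊x⌋₊) hintd
      refine h5.congr (Filter.Eventually.of_forall fun v => ?_)
      simp only [kk]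
      rw [sum_mul]
      exact sum_congr rfl fun d _ => by ring
    · intro v hv
      have hv0 : 0 < v := by have := hv.1; linarith
      have hu : 0 < x / v := by positivity
      have h5 := kk_le hδ hδ1 hx hv0
      have hw := ww_nonneg f v
      by_cases hc : u0 ≤ x / v
      · have h6 := hu0 _ hc
        have h7 : kk δ x v ≤ 2 * C := by
          refine h5.trans ?_
          rw [div_le_iff₀ (by positivity)]
          nlinarith
        have h8 : 0 ≤ (Set.Ioc (x / u0) x).indicator (fun v => 2 * Cp / δ * (1 / v)) v := by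
          refine Set.indicator_nonneg (fun w hw => ?_) v
          have : 0 < w := hxu.trans hw.1
          positivity
        nlinarith
      · rw [not_le] at hc
        have h6 := KK_le_all (δ := δ) hu.le
        have h7 : kk δ x v ≤ 2 * Cp / δ := by
          refine h5.trans ?_
          rw [div_le_div_iff₀ (by positivity) hδ]
          have : 2 * KK δ (x / v) * δ ≤ 2 * (Cp * (x / v)) * δ := by gcongr
          linarith
        have hm : v ∈ Set.Ioc (x / u0) x := by
          refine ⟨?_, hv.2⟩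
          rw [div_lt_iff₀ (by linarith)]
          rw [div_lt_iff₀ hv0] at hc
          linarith [mul_comm u0 v]
        rw [Set.indicator_of_mem hm]
        have h8 := ww_le hf hv0
        have h9 : kk δ x v * ww f v ≤ 2 * Cp / δ * (1 / v) := by
          calc kk δ x v * ww f v ≤ 2 * Cp / δ * ww f v := mul_le_mul_of_nonneg_right h7 hw
            _ ≤ 2 * Cp / δ * (1 / v) := mul_le_mul_of_nonneg_left h8 (by positivity)
        have : 0 ≤ 2 * C * ww f v := by positivity
        linarith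
  have h5 : ∫ v in Set.Icc 1 x, (2 * C * ww f v
        + (Set.Ioc (x / u0) x).indicator (fun v => 2 * Cp / δ * (1 / v)) v)
      ≤ 2 * C * (∫ v in Set.Icc 1 x, ww f v) + 2 * Cp / δ * Real.log u0 := by
    rw [integral_add hi1 hi2.integrableOn, integral_const_mul]
    have h6 : ∫ v in Set.Icc 1 x, (Set.Ioc (x / u0) x).indicator (fun v => 2 * Cp / δ * (1 / v)) v
        ≤ ∫ v, (Set.Ioc (x / u0) x).indicator (fun v => 2 * Cp / δ * (1 / v)) v := by
      refine setIntegral_le_integral hi2 (Filter.Eventually.of_forall fun v => ?_)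
      refine Set.indicator_nonneg (fun w hw => ?_) v
      have : 0 < w := hxu.trans hw.1
      positivity
    have h7 : x / (x / u0) = u0 := by field_simp
    have h8 : ∫ v, (Set.Ioc (x / u0) x).indicator (fun v => 2 * Cp / δ * (1 / v)) v
        = 2 * Cp / δ * Real.log u0 := by
      rw [integral_indicator measurableSet_Ioc, integral_const_mul,
        int_inv hxu (div_le_self hx0.le hu01), h7]
    linarith
  -- assembly
  have h6 := mertens_le hx
  have h7 := sum_L_le hx0.le
  calc ∑ d ∈ Ioc 0 ⌊x⌋₊, Λ d * ‖SS f (x / d)‖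
      ≤ ∑ d ∈ Ioc 0 ⌊x⌋₊, (x * (Λ d / (d * δ) * ∫ v in Set.Ioc (x / d / (1 + δ)) (x / d), ww f v)
        + δ * x * (Λ d / d) + Λ d) := sum_le_sum h1
    _ = x * (∫ v in Set.Icc 1 x, kk δ x v * ww f v) + δ * x * (∑ d ∈ Ioc 0 ⌊x⌋₊, Λ d / d)
        + ∑ d ∈ Ioc 0 ⌊x⌋₊, Λ d := by
        rw [sum_add_distrib, sum_add_distrib, ← mul_sum, ← mul_sum, h3]
    _ ≤ x * (2 * C * (∫ v in Set.Icc 1 x, ww f v) + 2 * Cp / δ * Real.log u0)
        + δ * x * (Real.log x + Cp) + Cp * x := by
        have := h4.trans h5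
        gcongr
    _ = _ := by ring

end Pool.Agent.MRH
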